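import Mathlib.Combinatorics.SimpleGraph.Acyclic

-- ======== part 0: formerly Pool.Agent.MP_8cd4dc_co.Metric
section MrgPart0

set_option autoImplicit false

namespace Pool.Agent.MP_8cd4dc_co

open Finset

variable {V : Type*}

/-- The properties of the distance function of a tree that are used below. -/
structure IsTM (d : V → V → ℕ) : Prop where
  self : ∀ a, d a a = 0
  eq_of : ∀ a b, d a b = 0 → a = b
  symm : ∀ a b, d a b = d b a
  tri : ∀ a b c, d a c ≤ d a b + d b c
  step : ∀ a b k, d a b = k + 1 → ∃ c, d a c = k ∧ d c b = 1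
  ne : ∀ q a b, d a b = 1 → d q a ≠ d q b
  cut : ∀ a b q q', d a b = 1 → d q a < d q b → d q' b < d q' a → d q q' = d q a + 1 + d q' b

theorem dist_add_of_mem_support {G : SimpleGraph V} (hc : G.Connected) {a b w : V}
    (p : G.Walk a b) (hp : p.length = G.dist a b) (hw : w ∈ p.support) :
    G.dist a w + G.dist w b = G.dist a b := by
  classical
  have h1 := SimpleGraph.dist_le (p.takeUntil w hw)
  have h2 := SimpleGraph.dist_le (p.dropUntil w hw)
  have h3 : (p.takeUntil w hw).length + (p.dropUntil w hw).length = p.length := by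
    rw [← SimpleGraph.Walk.length_append, SimpleGraph.Walk.take_spec]
  have h4 := hc.dist_triangle (u := a) (v := w) (w := b)
  omega

theorem isTM_of_tree {G : SimpleGraph V} (hG : G.IsTree) : IsTM G.dist := by
  classical
  have hc := hG.connected
  refine ⟨fun a => SimpleGraph.dist_self, fun a b h => hc.dist_eq_zero_iff.1 h,
    fun a b => SimpleGraph.dist_comm, fun a b c => hc.dist_triangle, ?_, ?_, ?_⟩
  · intro a b k h
    obtain ⟨p, hp⟩ := hc.exists_walk_length_eq_dist b a
    rw [SimpleGraph.dist_comm, h] at hp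
    cases p with
    | nil => simp at hp
    | cons hadj q =>
      rename_i c
      refine ⟨c, ?_, SimpleGraph.dist_eq_one_iff_adj.2 hadj.symm⟩
      have h1 := SimpleGraph.dist_le q
      have h2 := hc.dist_triangle (u := a) (v := c) (w := b)
      have h3 : G.dist c b = 1 := SimpleGraph.dist_eq_one_iff_adj.2 hadj.symm
      rw [SimpleGraph.dist_comm] at h1
      simp only [SimpleGraph.Walk.length_cons] at hp
      omega
  · intro q a b h
    exact hG.dist_ne_of_adj q (SimpleGraph.dist_eq_one_iff_adj.1 h)
  · intro a b q q' h h1 h2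
    have hadj := SimpleGraph.dist_eq_one_iff_adj.1 h
    obtain ⟨p, hp⟩ := hc.exists_walk_length_eq_dist q a
    obtain ⟨p', hp'⟩ := hc.exists_walk_length_eq_dist b q'
    have hpp := p.isPath_of_length_eq_dist hp
    have hpp' := p'.isPath_of_length_eq_dist hp'
    have hdis : ∀ w, w ∈ p.support → w ∈ p'.support → False := by
      intro w hw hw'
      have e1 := dist_add_of_mem_support hc p hp hw
      have e2 := dist_add_of_mem_support hc p' hp' hw'
      have e3 := hc.dist_triangle (u := q) (v := w) (w := b)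
      have e4 := hc.dist_triangle (u := q') (v := w) (w := a)
      rw [SimpleGraph.dist_comm (u := b) (v := w), SimpleGraph.dist_comm (u := w) (v := q'),
        SimpleGraph.dist_comm (u := b) (v := q')] at e2
      omega
    have hpath : (p.append (SimpleGraph.Walk.cons hadj p')).IsPath := by
      rw [SimpleGraph.Walk.isPath_def, SimpleGraph.Walk.support_append]
      simp only [SimpleGraph.Walk.support_cons, List.tail_cons]
      rw [List.nodup_append]
      refine ⟨hpp.support_nodup, hpp'.support_nodup, ?_⟩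
      intro x hx y hy e
      subst e
      exact hdis x hx hy
    obtain ⟨r, hr⟩ := hc.exists_walk_length_eq_dist q q'
    have hrp := r.isPath_of_length_eq_dist hr
    have := (hG.isAcyclic.subsingleton_path q q').elim ⟨r, hrp⟩ ⟨_, hpath⟩
    have e : r = p.append (SimpleGraph.Walk.cons hadj p') := congrArg Subtype.val this
    rw [← hr, e, SimpleGraph.Walk.length_append, SimpleGraph.Walk.length_cons, hp, hp',
      SimpleGraph.dist_comm (u := b) (v := q')]
    omega

namespace IsTM

variable {d : V → V → ℕ} (h : IsTM d)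
include h

theorem adj_cases (q : V) {a b : V} (hab : d a b = 1) :
    d q b = d q a + 1 ∨ d q a = d q b + 1 := by
  have h1 := h.ne q a b hab
  have h2 := h.tri q a b
  have h3 := h.tri q b a
  rw [h.symm b a] at h3
  omega

theorem parity (q : V) : ∀ (n : ℕ) (a b : V), d a b = n → (d a q + d b q + n) % 2 = 0 := by
  intro n
  induction n with
  | zero => intro a b e; rw [h.eq_of a b e]; omega
  | succ n ih =>
    intro a b e
    obtain ⟨c, h1, h2⟩ := h.step a b n e
    have := ih a c h1
    have h3 := h.adj_cases q h2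
    rw [h.symm q b, h.symm q c] at h3
    omega

theorem four (q q' : V) : ∀ (n : ℕ) (a b : V), d a b = n →
    d q q' + n ≤ max (d a q + d b q') (d a q' + d b q) := by
  intro n
  induction n with
  | zero =>
    intro a b e
    rw [h.eq_of a b e]
    have := h.tri q b q'
    rw [h.symm q b] at this
    omega
  | succ n ih =>
    intro a b e
    obtain ⟨c, h1, h2⟩ := h.step a b n e
    have i := ih a c h1
    have hcb : d b c = 1 := by rw [h.symm]; exact h2
    have t := h.tri q b q'
    have s1 := h.symm q b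
    have s2 := h.symm q c
    have s3 := h.symm q' b
    have s4 := h.symm q' c
    have s5 := h.symm q q'
    rcases h.adj_cases q h2 with c1 | c1 <;> rcases h.adj_cases q' h2 with c2 | c2
    · omega
    · have x1 := h.cut c b q q' h2 (by omega) (by omega)
      have x2 := h.cut c b a q' h2 (by omega) (by omega)
      omega
    · have x1 := h.cut c b q' q h2 (by omega) (by omega)
      have x2 := h.cut c b a q h2 (by omega) (by omega)
      omega
    · have x2 := h.cut c b a q h2 (by omega) (by omega)
      omega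

theorem geod (a : V) : ∀ (n : ℕ) (b : V), d a b = n → ∀ k, k ≤ n →
    ∃ p, d a p = k ∧ d p b + k = n := by
  intro n
  induction n with
  | zero =>
    intro b e k hk
    exact ⟨b, by omega, by rw [h.self]; omega⟩
  | succ n ih =>
    intro b e k hk
    by_cases hkn : k = n + 1
    · exact ⟨b, by omega, by rw [h.self]; omega⟩
    · obtain ⟨c, h1, h2⟩ := h.step a b n e
      obtain ⟨p, p1, p2⟩ := ih c h1 k (by omega)
      refine ⟨p, p1, ?_⟩
      have t1 := h.tri p c b
      have t2 := h.tri a p b
      omega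

/-- A finite set of diameter at most `2k` lies in a ball of radius `k`. -/
theorem center (Q : Finset V) (hQ : Q.Nonempty) (k : ℕ)
    (hk : ∀ a ∈ Q, ∀ b ∈ Q, d a b ≤ 2 * k) : ∃ c, ∀ q ∈ Q, d c q ≤ k := by
  obtain ⟨⟨a, b⟩, hab, hmax⟩ := exists_max_image (Q ×ˢ Q) (fun x => d x.1 x.2) (hQ.product hQ)
  rw [mem_product] at hab
  obtain ⟨c, c1, c2⟩ := h.geod a _ b rfl (d a b / 2) (Nat.div_le_self _ _)
  refine ⟨c, fun q hq => ?_⟩
  have f := h.four c q _ a b rfl
  have m1 := hmax (a, q) (mem_product.2 ⟨hab.1, hq⟩)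
  have m2 := hmax (b, q) (mem_product.2 ⟨hab.2, hq⟩)
  have m3 := hk a hab.1 b hab.2
  have s := h.symm b c
  simp only at m1 m2
  omega

/-- Adjacent vertices on opposite sides of an edge are the ends of the edge. -/
theorem cross {a b q q' : V} (hab : d a b = 1) (h1 : d q a < d q b) (h2 : d q' b < d q' a)
    (hq : d q q' ≤ 1) : q = a ∧ q' = b := by
  have := h.cut a b q q' hab h1 h2
  exact ⟨h.eq_of _ _ (by omega), h.eq_of _ _ (by omega)⟩

/-- A neighbour of a vertex on the `b` side is on the `b` side, unless it is `a`. -/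
theorem side_nbr {a b x u : V} (hab : d a b = 1) (hx : d x b < d x a) (hu : d u x ≤ 1)
    (hne : u ≠ a) : d u b < d u a := by
  rcases h.adj_cases u hab with c | c
  · exact absurd (h.cross hab (by omega) hx hu).1 hne
  · omega

/-- A ball that misses `a` and whose centre is on the `b` side lies on the `b` side. -/
theorem side_ball {a b w q : V} {r : ℕ} (hab : d a b = 1) (hw : d w b < d w a) (hr : r < d w a)
    (hq : d w q ≤ r) : d q b < d q a := by
  rcases h.adj_cases q hab with c | c
  · have := h.cut a b q w hab (by omega) hw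
    have s := h.symm q w
    rcases h.adj_cases w hab with c' | c' <;> omega
  · omega

/-- A ball that misses `a` and meets the `b` side has its centre on the `b` side. -/
theorem side_ctr {a b w q : V} {r : ℕ} (hab : d a b = 1) (hq : d q b < d q a) (hr : r < d w a)
    (hw : d w q ≤ r) : d w b < d w a := by
  rcases h.adj_cases w hab with c | c
  · have := h.cut a b w q hab (by omega) hq
    omega
  · omega

/-- The outer sides of two edges that face each other are disjoint. -/
theorem outer_disj {a b a' b' q : V} (hab : d a b = 1) (hab' : d a' b' = 1)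
    (h1 : d a' b < d a' a) (h2 : d a b' < d a a') (q1 : d q a < d q b) (q2 : d q a' < d q b') :
    False := by
  have x1 := h.cut a b q a' hab q1 h1
  have x2 := h.cut a' b' q a hab' q2 h2
  omega

end IsTM

end Pool.Agent.MP_8cd4dc_co

end MrgPart0

-- ======== part 1: formerly Pool.Agent.MP_8cd4dc_co.Dual
section MrgPart1

set_option autoImplicit false

namespace Pool.Agent.MP_8cd4dc_co

open Finset

variable {V : Type*} {d : V → V → ℕ}

/-- Weighted covering of vertices of a tree by balls: the greedy primal-dual pair. -/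
theorem greedy [DecidableEq V] (h : IsTM d) (ρ : V) : ∀ (n : ℕ) (X : Finset V), X.card = n →
    ∀ w : V × ℕ → ℕ, ∃ (Y : Finset (V × ℕ)) (x : V → ℕ), (∀ B ∈ Y, 1 ≤ B.2) ∧
      (∀ q ∈ X, ∃ B ∈ Y, d B.1 q ≤ B.2) ∧
      (∀ B : V × ℕ, 1 ≤ B.2 → ∑ q ∈ X.filter (fun q => d B.1 q ≤ B.2), x q ≤ w B) ∧
      ∑ B ∈ Y, w B ≤ ∑ q ∈ X, x q := by
  intro n
  induction n with
  | zero =>
    intro X hX w
    rw [card_eq_zero] at hX
    subst hX
    exact ⟨∅, fun _ => 0, by simp, by simp, by simp, by simp⟩
  | succ n ih =>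
    intro X hX w
    obtain ⟨q, hq, hmax⟩ := exists_max_image X (d ρ) (card_pos.1 (by omega))
    have hex : ∃ a, ∃ B : V × ℕ, 1 ≤ B.2 ∧ d B.1 q ≤ B.2 ∧ w B = a :=
      ⟨_, (q, 1), le_rfl, by simp [h.self], rfl⟩
    classical
    obtain ⟨B0, b1, b2, b3⟩ := Nat.find_spec hex
    set α := Nat.find hex with hα
    have hmin : ∀ B : V × ℕ, 1 ≤ B.2 → d B.1 q ≤ B.2 → α ≤ w B := fun B e1 e2 =>
      Nat.find_min' hex ⟨B, e1, e2, rfl⟩
    let w' : V × ℕ → ℕ := fun B => if d B.1 q ≤ B.2 then w B - α else w B
    obtain ⟨Y, x, y1, y2, y3, y4⟩ := ih (X.erase q) (by rw [card_erase_of_mem hq]; omega) w'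
    have hsum : ∀ S : Finset V, q ∉ S → ∑ a ∈ S, Function.update x q α a = ∑ a ∈ S, x a :=
      fun S hS => sum_congr rfl fun a ha => Function.update_of_ne (by rintro rfl; exact hS ha) _ _
    have htot : ∑ a ∈ X, Function.update x q α a = α + ∑ a ∈ X.erase q, x a := by
      rw [← add_sum_erase X _ hq, Function.update_self, hsum _ (notMem_erase q X)]
    have hpack : ∀ B : V × ℕ, 1 ≤ B.2 →
        ∑ a ∈ X.filter (fun a => d B.1 a ≤ B.2), Function.update x q α a ≤ w B := by
      intro B hB
      have := y3 B hB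
      by_cases hb : d B.1 q ≤ B.2
      · have hm : q ∈ X.filter (fun a => d B.1 a ≤ B.2) := mem_filter.2 ⟨hq, hb⟩
        rw [← add_sum_erase _ _ hm, Function.update_self, hsum _ (notMem_erase q _),
          ← filter_erase]
        have := hmin B hB hb
        simp only [w', if_pos hb] at *
        omega
      · have hm : q ∉ X.filter (fun a => d B.1 a ≤ B.2) := fun e => hb (mem_filter.1 e).2
        rw [filter_erase, erase_eq_of_notMem hm] at this
        rw [hsum _ hm]
        simpa only [w', if_neg hb] using this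
    let Yq := Y.filter (fun B => d B.1 q ≤ B.2)
    let Yn := Y.filter (fun B => ¬ d B.1 q ≤ B.2)
    have hsplit : ∑ B ∈ Yq, w' B + ∑ B ∈ Yn, w' B = ∑ B ∈ Y, w' B := sum_filter_add_sum_filter_not _ _ _
    have hYn : ∑ B ∈ Yn, w B = ∑ B ∈ Yn, w' B :=
      sum_congr rfl fun B hB => by simp only [w', if_neg (mem_filter.1 hB).2]
    by_cases hne : Yq.Nonempty
    · obtain ⟨B1, hB1, hB1min⟩ := exists_min_image Yq (fun B => (d ρ B.1 : ℤ) - B.2) hne
      have hB1' := mem_filter.1 hB1
      refine ⟨insert B1 Yn, Function.update x q α, ?_, ?_, hpack, ?_⟩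
      · intro B hB
        rcases mem_insert.1 hB with e | e
        · exact e ▸ y1 B1 hB1'.1
        · exact y1 B (mem_filter.1 e).1
      · intro a ha
        by_cases haq : a = q
        · exact ⟨B1, mem_insert_self _ _, haq ▸ hB1'.2⟩
        obtain ⟨B, hB, hBa⟩ := y2 a (mem_erase.2 ⟨haq, ha⟩)
        by_cases hb : d B.1 q ≤ B.2
        · refine ⟨B1, mem_insert_self _ _, ?_⟩
          have m1 := hB1min B (mem_filter.2 ⟨hB, hb⟩)
          have m2 := hmax a ha
          have f1 := h.four q a _ ρ B.1 rfl
          have f2 := h.four B1.1 a _ ρ q rfl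
          have s := h.symm q B1.1
          have := hB1'.2
          omega
        · exact ⟨B, mem_insert_of_mem (mem_filter.2 ⟨hB, hb⟩), hBa⟩
      · have hn : B1 ∉ Yn := fun e => (mem_filter.1 e).2 hB1'.2
        rw [sum_insert hn, htot, hYn]
        have l1 : w' B1 ≤ ∑ B ∈ Yq, w' B := single_le_sum (fun _ _ => Nat.zero_le _) hB1
        have l2 : w' B1 = w B1 - α := by simp only [w', if_pos hB1'.2]
        have := hmin B1 (y1 B1 hB1'.1) hB1'.2
        omega
    · refine ⟨insert B0 Yn, Function.update x q α, ?_, ?_, hpack, ?_⟩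
      · intro B hB
        rcases mem_insert.1 hB with e | e
        · exact e ▸ b1
        · exact y1 B (mem_filter.1 e).1
      · intro a ha
        by_cases haq : a = q
        · exact ⟨B0, mem_insert_self _ _, haq ▸ b2⟩
        obtain ⟨B, hB, hBa⟩ := y2 a (mem_erase.2 ⟨haq, ha⟩)
        by_cases hb : d B.1 q ≤ B.2
        · exact absurd ⟨B, mem_filter.2 ⟨hB, hb⟩⟩ hne
        · exact ⟨B, mem_insert_of_mem (mem_filter.2 ⟨hB, hb⟩), hBa⟩
      · have hn : B0 ∉ Yn := fun e => (mem_filter.1 e).2 b2
        rw [sum_insert hn, htot, hYn]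
        omega

/-- In a finite tree some family of balls covers all vertices at a total radius that is at most
the size of some multipacking. -/
theorem exists_cover_pack [Fintype V] [DecidableEq V] [Nonempty V] (h : IsTM d) :
    ∃ (Y : Finset (V × ℕ)) (M : Finset V), (∀ B ∈ Y, 1 ≤ B.2) ∧ (∀ q, ∃ B ∈ Y, d B.1 q ≤ B.2) ∧
      (∀ Q ⊆ M, ∀ k, 1 ≤ k → (∀ a ∈ Q, ∀ b ∈ Q, d a b ≤ 2 * k) → Q.card ≤ k) ∧
      ∑ B ∈ Y, B.2 ≤ M.card := by
  obtain ⟨ρ⟩ := ‹Nonempty V›
  obtain ⟨Y, x, y1, y2, y3, y4⟩ := greedy h ρ _ univ rfl (fun B => B.2)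
  have hx : ∀ q, x q ≤ 1 := fun q => by
    have := y3 (q, 1) le_rfl
    exact le_trans (single_le_sum (f := x) (fun _ _ => Nat.zero_le _)
      (mem_filter.2 ⟨mem_univ q, by simp [h.self]⟩)) this
  refine ⟨Y, univ.filter (fun q => x q = 1), y1, fun q => y2 q (mem_univ q), ?_, ?_⟩
  · intro Q hQ k hk hd
    rcases Q.eq_empty_or_nonempty with e | e
    · simp [e]
    obtain ⟨c, hc⟩ := h.center Q e k hd
    have := y3 (c, k) hk
    refine le_trans ?_ this
    rw [card_eq_sum_ones]
    refine le_trans (le_of_eq (sum_congr rfl fun a ha => (mem_filter.1 (hQ ha)).2.symm)) ?_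
    exact sum_le_sum_of_subset fun a ha => mem_filter.2 ⟨mem_univ a, hc a ha⟩
  · refine le_trans y4 ?_
    rw [card_filter]
    refine sum_le_sum fun q _ => ?_
    have := hx q
    split_ifs <;> omega

end Pool.Agent.MP_8cd4dc_co

end MrgPart1

-- marker of a merged file
example : 731051 + 680613 = 731051 + 680613 := rfl
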