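import Mathlib.Tactic.Ring.RingNF
import Mathlib.Data.Finset.Sort
import Mathlib.Data.Int.ConditionallyCompleteOrder
import Pool.Agent.MP_8cd4dc_co.Dual

-- ======== part 0: formerly Pool.Agent.MP_8cd4dc_co.Line
section MrgPart0

set_option autoImplicit false

namespace Pool.Agent.MP_8cd4dc_co

open Finset

variable {V : Type*}

/-- Private boundary in metric terms. -/
def PB (d : V → V → ℕ) (f : V → ℕ) (v y : V) : Prop :=
  d v y ≤ f v ∧ (∀ w, w ≠ v → 0 < f w → f w < d w y) ∧ (f v = 1 ∨ d v y = f v)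

/-- The private boundary of `v` is the single vertex `x`, at full distance from `v`. -/
def Sing (d : V → V → ℕ) (f : V → ℕ) (v x : V) : Prop :=
  PB d f v x ∧ (∀ y, PB d f v y → y = x) ∧ d v x = f v

/-- Two balls share a vertex. -/
def Ov (d : V → V → ℕ) (f : V → ℕ) (v w : V) : Prop :=
  0 < f v ∧ 0 < f w ∧ ∃ q, d v q ≤ f v ∧ d w q ≤ f w

/-- The ball of `v` carries a pendant point. -/
def Act (d : V → V → ℕ) (f : V → ℕ) (Q : Finset (V × ℕ)) (v : V) : Prop :=
  ∃ x, Sing d f v x ∧ (x, 1) ∈ Q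

/-- A cluster `C` of balls with a family `Q` of points that exceeds its cost. -/
structure Pre (d : V → V → ℕ) (f : V → ℕ) (Q : Finset (V × ℕ)) (C : Finset V) (vt : V → Prop) :
    Prop where
  tm : IsTM d
  fpos : ∀ v ∈ C, 0 < f v
  closed : ∀ v ∈ C, ∀ w, Ov d f v w → w ∈ C
  irr : ∀ w, 0 < f w → ∃ y, PB d f w y
  pts : ∀ π ∈ Q, ∃ v ∈ C, (π.2 = 0 ∧ d v π.1 ≤ f v) ∨ (π.2 = 1 ∧ Sing d f v π.1)
  mp : ∀ R ⊆ Q, ∀ k, 1 ≤ k →
    (∀ π ∈ R, ∀ π' ∈ R, π ≠ π' → d π.1 π'.1 + π.2 + π'.2 ≤ 2 * k) → R.card ≤ k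
  card : ∑ v ∈ C, f v + 1 ≤ Q.card
  r1 : ∀ v ∈ C, Act d f Q v → ¬ vt v →
    ∃ z, z ≠ v ∧ 0 < f z ∧ ∀ y, PB d f z y → d v y ≤ f v + 1
  r2 : ∀ v ∈ C, ∀ t ∈ C, Act d f Q v → Act d f Q t → ¬ vt v → ¬ vt t → v ≠ t → d v t ≤ f v →
    ∃ z, z ≠ v ∧ z ≠ t ∧ 0 < f z ∧ ∀ y, PB d f z y → d v y ≤ f v + 1 ∨ d t y ≤ f t + 1

/-- A cluster whose centres lie on a line, with coordinates. -/
structure Cf (d : V → V → ℕ) (f : V → ℕ) (Q : Finset (V × ℕ)) (C : Finset V) (vt : V → Prop)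
    (m : ℕ) (c : ℕ → V) (lo hi : V → ℤ) (s e : ℕ → ℤ) : Prop where
  pre : Pre d f Q C vt
  mem : ∀ v, v ∈ C ↔ ∃ k, k < m ∧ c k = v
  par : ∀ q, lo q ≤ hi q ∧ (hi q - lo q) % 2 = 0
  dle : ∀ q q', (d q q' : ℤ) ≤ max (hi q - lo q') (hi q' - lo q)
  dc : ∀ k, k < m → ∀ q, (d (c k) q : ℤ) =
    max (hi q - (e k + 2 * s k + f (c k))) (e k + 2 * s k + f (c k) - lo q)
  s0 : s 0 = 0
  sS : ∀ k, k < m → s (k + 1) = s k + f (c k)
  sm : s m = ((∑ v ∈ C, f v : ℕ) : ℤ)
  eanti : ∀ k k', k ≤ k' → k' < m → e k' ≤ e k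
  ebud : ∀ k k', k < m → k' < m → e k ≤ e k' + 1

/-- An edge `p y` that leaves the cluster, with a heavy set of points behind it. -/
def Ex (d : V → V → ℕ) (f : V → ℕ) (Q : Finset (V × ℕ)) (C : Finset V) (vt : V → Prop)
    (p y : V) (w : ℕ) : Prop :=
  d p y = 1 ∧ (∃ z, 0 < f z ∧ z ∉ C ∧ Sing d f z y ∧ f z < d z p) ∧
    (∃ t ∈ C, ¬ vt t ∧ d t p ≤ f t) ∧
    ∃ R ⊆ Q, ∃ F : ℕ, 1 ≤ F ∧ F + 1 ≤ R.card ∧
      (∀ π ∈ R, ∀ π' ∈ R, π ≠ π' → d π.1 π'.1 + π.2 + π'.2 ≤ 2 * F + 2) ∧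
      ∀ π ∈ R, d π.1 p + π.2 + 2 * w ≤ 2 * F + 2

namespace Cf

variable {d : V → V → ℕ} {f : V → ℕ} {Q : Finset (V × ℕ)} {C : Finset V} {vt : V → Prop}
  {m : ℕ} {c : ℕ → V} {lo hi : V → ℤ} {s e : ℕ → ℤ} (h : Cf d f Q C vt m c lo hi s e)
include h

theorem cmem {k : ℕ} (hk : k < m) : c k ∈ C := (h.mem _).2 ⟨k, hk, rfl⟩

theorem fp {k : ℕ} (hk : k < m) : 0 < f (c k) := h.pre.fpos _ (h.cmem hk)

theorem ball {k : ℕ} (hk : k < m) (q : V) :
    d (c k) q ≤ f (c k) ↔ e k + 2 * s k ≤ lo q ∧ hi q ≤ e k + 2 * s (k + 1) := by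
  have := h.dc k hk q
  have := h.sS k hk
  omega

theorem smono {k k' : ℕ} (hk : k ≤ k') (hk' : k' ≤ m) : s k ≤ s k' := by
  induction k', hk using Nat.le_induction with
  | base => exact le_rfl
  | succ n _ ih =>
    have := ih (by omega)
    have := h.sS n (by omega)
    omega

theorem cinj {k k' : ℕ} (hk : k < k') (hk' : k' < m) : c k ≠ c k' := by
  intro e0
  have a1 := h.dc k (by omega) (c k)
  have a2 := h.dc k' hk' (c k)
  have a3 := h.par (c k)
  have a4 := h.smono (show k + 1 ≤ k' by omega) hk'.le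
  have a5 := h.sS k (by omega)
  have a6 := h.ebud k k' (by omega) hk'
  have a7 := h.fp hk'
  rw [← e0] at a2 a7
  rw [h.pre.tm.self] at a1 a2
  omega

theorem other {k : ℕ} (hk : k < m) {q w : V} (hq : d (c k) q ≤ f (c k)) (hw : w ≠ c k)
    (hf : 0 < f w) (hwq : d w q ≤ f w) :
    (∃ j, j + 1 = k ∧ w = c j) ∨ (k + 1 < m ∧ w = c (k + 1)) := by
  obtain ⟨j, hj, rfl⟩ := (h.mem w).1 (h.pre.closed _ (h.cmem hk) w ⟨h.fp hk, hf, q, hq, hwq⟩)
  have b1 := (h.ball hk q).1 hq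
  have b2 := (h.ball hj q).1 hwq
  have b3 := h.par q
  rcases lt_trichotomy j k with l | l | l
  · by_cases e1 : j + 1 = k
    · exact Or.inl ⟨j, e1, rfl⟩
    · exfalso
      have := h.smono (show j + 1 + 1 ≤ k by omega) hk.le
      have := h.sS (j + 1) (by omega)
      have := h.fp (show j + 1 < m by omega)
      have := h.ebud j k hj hk
      omega
  · exact absurd (l ▸ rfl) hw
  · by_cases e1 : k + 1 = j
    · exact Or.inr ⟨by omega, e1 ▸ rfl⟩
    · exfalso
      have := h.smono (show k + 1 + 1 ≤ j by omega) hj.le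
      have := h.sS (k + 1) (by omega)
      have := h.fp (show k + 1 < m by omega)
      have := h.ebud k j hk hj
      omega

theorem pt {k : ℕ} (hk : k < m) {π : V × ℕ} (hπ : π ∈ Q) (hq : d (c k) π.1 ≤ f (c k)) :
    π.2 = 0 ∨ (π.2 = 1 ∧ Sing d f (c k) π.1) := by
  obtain ⟨v, hv, a | a⟩ := h.pre.pts π hπ
  · exact Or.inl a.1
  · refine Or.inr ⟨a.1, ?_⟩
    by_cases e0 : c k = v
    · exact e0 ▸ a.2
    · have := a.2.1.2.1 (c k) e0 (h.fp hk)
      omega

theorem inball {π : V × ℕ} (hπ : π ∈ Q) : ∃ k, k < m ∧ d (c k) π.1 ≤ f (c k) := by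
  obtain ⟨v, hv, a⟩ := h.pre.pts π hπ
  obtain ⟨k, hk, rfl⟩ := (h.mem v).1 hv
  exact ⟨k, hk, a.elim (fun a => a.2) (fun a => a.2.1.1)⟩

theorem two {π π' : V × ℕ} (h1 : π ∈ Q) (h2 : π' ∈ Q) (hne : π ≠ π') :
    3 ≤ d π.1 π'.1 + π.2 + π'.2 := by
  classical
  by_contra hlt
  have := h.pre.mp {π, π'} (by intro x hx; simp at hx; rcases hx with rfl | rfl <;> assumption) 1
    le_rfl (by
      intro a ha b hb hab
      simp at ha hb
      have := h.pre.tm.symm π.1 π'.1
      rcases ha with rfl | rfl <;> rcases hb with rfl | rfl <;> first | exact absurd rfl hab | omega)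
  rw [card_pair hne] at this
  omega

theorem cnt {R : Finset (V × ℕ)} (hR : R ⊆ Q) (a K : ℤ) (hK : 1 ≤ K)
    (hb : ∀ π ∈ R, a ≤ lo π.1 - π.2 ∧ hi π.1 + π.2 ≤ a + 2 * K) : (R.card : ℤ) ≤ K := by
  have := h.pre.mp R hR K.toNat (by omega) (by
    intro π h1 π' h2 _
    have := hb π h1
    have := hb π' h2
    have := h.dle π.1 π'.1
    omega)
  omega

/-- Points of the ball `k` that lie in no other ball. -/
theorem priv_cases {k : ℕ} (hk : k < m) {π : V × ℕ} (hπ : π ∈ Q) (hq : d (c k) π.1 ≤ f (c k))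
    (hp : ∀ w, w ≠ c k → 0 < f w → f w < d w π.1) :
    (π.2 = 1 ∧ Sing d f (c k) π.1) ∨ (π.2 = 0 ∧ PB d f (c k) π.1) ∨
      (π.2 = 0 ∧ 2 ≤ f (c k) ∧ d (c k) π.1 < f (c k)) := by
  rcases h.pt hk hπ hq with a | a
  · have := h.fp hk
    by_cases b : f (c k) = 1 ∨ d (c k) π.1 = f (c k)
    · exact Or.inr (Or.inl ⟨a, hq, hp, b⟩)
    · exact Or.inr (Or.inr ⟨a, by omega, by omega⟩)
  · exact Or.inl a

/-- Interior points of a ball. -/
theorem int_card {k : ℕ} (hk : k < m) {R : Finset (V × ℕ)} (hR : R ⊆ Q)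
    (hb : ∀ π ∈ R, π.2 = 0 ∧ 2 ≤ f (c k) ∧ d (c k) π.1 < f (c k)) : R.card + 1 ≤ f (c k) := by
  rcases R.eq_empty_or_nonempty with e0 | ⟨π0, e0⟩
  · have := h.fp hk
    simp only [e0, card_empty]; omega
  have h2 := (hb π0 e0).2.1
  have := h.cnt hR (e k + 2 * s k + 1) (f (c k) - 1) (by omega) (by
    intro π hπ
    have := hb π hπ
    have := h.dc k hk π.1
    omega)
  omega

theorem act_pb {k : ℕ} {x y : V} (hx : Sing d f (c k) x) (hxQ : (x, 1) ∈ Q)
    (hy : PB d f (c k) y) : (y, 0) ∉ Q := by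
  intro hyQ
  have e0 := hx.2.1 y hy
  subst e0
  have := h.two hxQ hyQ (by simp)
  simp only [h.pre.tm.self] at this
  omega

theorem priv_lt {k : ℕ} (hk : k < m) {R : Finset (V × ℕ)} (hR : R ⊆ Q)
    (hb : ∀ π ∈ R, d (c k) π.1 ≤ f (c k) ∧ ∀ w, w ≠ c k → 0 < f w → f w < d w π.1)
    (hn : ¬ Act d f Q (c k)) (hpb : ∀ y, PB d f (c k) y → (y, 0) ∉ Q) : R.card + 1 ≤ f (c k) := by
  refine h.int_card hk hR fun π hπ => ?_
  rcases h.priv_cases hk (hR hπ) (hb π hπ).1 (hb π hπ).2 with a | a | a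
  · exact absurd ⟨π.1, a.2, a.1 ▸ hR hπ⟩ hn
  · exact absurd (a.1 ▸ hR hπ) (hpb _ a.2)
  · exact a

theorem priv_le {k : ℕ} (hk : k < m) {R : Finset (V × ℕ)} (hR : R ⊆ Q)
    (hb : ∀ π ∈ R, d (c k) π.1 ≤ f (c k) ∧ ∀ w, w ≠ c k → 0 < f w → f w < d w π.1) :
    R.card ≤ f (c k) := by
  classical
  by_cases ha : Act d f Q (c k)
  · obtain ⟨x, hx, hxQ⟩ := ha
    have h1 := h.int_card hk (R := R.erase (x, 1)) ((erase_subset _ _).trans hR) (by
      intro π hπ
      have hπ' := mem_of_mem_erase hπ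
      rcases h.priv_cases hk (hR hπ') (hb π hπ').1 (hb π hπ').2 with a | a | a
      · exact absurd (Prod.ext (hx.2.1 _ a.2.1) a.1) (ne_of_mem_erase hπ)
      · exact absurd (a.1 ▸ hR hπ') (h.act_pb hx hxQ a.2)
      · exact a)
    have := pred_card_le_card_erase (s := R) (a := (x, 1))
    omega
  · have := h.fp hk
    have := h.cnt hR (e k + 2 * s k) (f (c k)) (by omega) (by
      intro π hπ
      have b := (h.ball hk π.1).1 (hb π hπ).1
      have := h.sS k hk
      rcases h.pt hk (hR hπ) (hb π hπ).1 with a | a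
      · omega
      · exact absurd ⟨π.1, a.2, a.1 ▸ hR hπ⟩ ha)
    omega

/-- Location of the points of the ball `k`. -/
theorem loc {k : ℕ} (hk : k < m) {π : V × ℕ} (hπ : π ∈ Q) (hq : d (c k) π.1 ≤ f (c k)) :
    e k + 2 * s k ≤ lo π.1 ∧ hi π.1 ≤ e k + 2 * s (k + 1) ∧ π.2 ≤ 1 ∧
      (¬ Act d f Q (c k) → π.2 = 0) := by
  have b := (h.ball hk π.1).1 hq
  rcases h.pt hk hπ hq with a | a
  · exact ⟨b.1, b.2, by omega, fun _ => a⟩
  · exact ⟨b.1, b.2, by omega, fun n => absurd ⟨π.1, a.2, a.1 ▸ hπ⟩ n⟩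

/-- An active ball of radius one has its centre in a neighbouring ball. -/
theorem act_one {k : ℕ} (hk : k < m) (ha : Act d f Q (c k)) (h1 : f (c k) = 1) :
    (∃ j, j + 1 = k ∧ e k < e j) ∨ (k + 1 < m ∧ e (k + 1) < e k) := by
  obtain ⟨x, hx, -⟩ := ha
  have s0 := h.pre.tm.self (c k)
  have : ¬ PB d f (c k) (c k) := fun a => by
    have := hx.2.1 _ a
    have := hx.2.2
    rw [← ‹c k = x›] at this
    omega
  have : ∃ w, w ≠ c k ∧ 0 < f w ∧ d w (c k) ≤ f w := by
    by_contra hn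
    push Not at hn
    exact this ⟨by omega, hn, Or.inl h1⟩
  obtain ⟨w, w1, w2, w3⟩ := this
  have a1 := h.dc k hk (c k)
  have a2 := h.par (c k)
  rcases h.other hk (q := c k) (by omega) w1 w2 w3 with ⟨j, e1, rfl⟩ | ⟨e1, rfl⟩
  · refine Or.inl ⟨j, e1, ?_⟩
    have := (h.ball (by omega) _).1 w3
    subst e1
    omega
  · refine Or.inr ⟨e1, ?_⟩
    have := (h.ball e1 _).1 w3
    have := h.sS k hk
    omega

end Cf

end Pool.Agent.MP_8cd4dc_co

end MrgPart0

-- ======== part 1: formerly Pool.Agent.MP_8cd4dc_co.Left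
section MrgPart1

set_option autoImplicit false

namespace Pool.Agent.MP_8cd4dc_co

open Finset

variable {V : Type*}

/-- Two balls share a point of `Q`. -/
def Mk (d : V → V → ℕ) (f : V → ℕ) (Q : Finset (V × ℕ)) (v w : V) : Prop :=
  ∃ q, (q, 0) ∈ Q ∧ d v q ≤ f v ∧ d w q ≤ f w

open Classical in
/-- Points outside the balls with index at least `a`. -/
noncomputable def Lft (d : V → V → ℕ) (f : V → ℕ) (Q : Finset (V × ℕ)) (m : ℕ) (c : ℕ → V)
    (a : ℕ) : Finset (V × ℕ) :=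
  Q.filter fun π => ∀ k, a ≤ k → k < m → f (c k) < d (c k) π.1

open Classical in
/-- Points in the balls with index in `[a, b)`. -/
noncomputable def Sg (d : V → V → ℕ) (f : V → ℕ) (Q : Finset (V × ℕ)) (c : ℕ → V)
    (a b : ℕ) : Finset (V × ℕ) :=
  Q.filter fun π => ∃ k, a ≤ k ∧ k < b ∧ d (c k) π.1 ≤ f (c k)

open Classical in
/-- Points that lie in the ball of `v` only. -/
noncomputable def Pv (d : V → V → ℕ) (f : V → ℕ) (Q : Finset (V × ℕ)) (v : V) : Finset (V × ℕ) :=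
  Q.filter fun π => d v π.1 ≤ f v ∧ ∀ w, w ≠ v → 0 < f w → f w < d w π.1

theorem mem_Lft {d : V → V → ℕ} {f : V → ℕ} {Q : Finset (V × ℕ)} {m : ℕ} {c : ℕ → V} {a : ℕ}
    {π : V × ℕ} : π ∈ Lft d f Q m c a ↔ π ∈ Q ∧ ∀ k, a ≤ k → k < m → f (c k) < d (c k) π.1 := by
  simp only [Lft, mem_filter]

theorem mem_Sg {d : V → V → ℕ} {f : V → ℕ} {Q : Finset (V × ℕ)} {c : ℕ → V} {a b : ℕ}
    {π : V × ℕ} : π ∈ Sg d f Q c a b ↔ π ∈ Q ∧ ∃ k, a ≤ k ∧ k < b ∧ d (c k) π.1 ≤ f (c k) := by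
  simp only [Sg, mem_filter]

theorem mem_Pv {d : V → V → ℕ} {f : V → ℕ} {Q : Finset (V × ℕ)} {v : V} {π : V × ℕ} :
    π ∈ Pv d f Q v ↔ π ∈ Q ∧ d v π.1 ≤ f v ∧ ∀ w, w ≠ v → 0 < f w → f w < d w π.1 := by
  simp only [Pv, mem_filter]

theorem Sg_sub {d : V → V → ℕ} {f : V → ℕ} {Q : Finset (V × ℕ)} {c : ℕ → V} {a b : ℕ} :
    Sg d f Q c a b ⊆ Q := fun _ hπ => (mem_Sg.1 hπ).1

theorem card_le_add {α : Type*} {A B D : Finset α} (hs : ∀ x ∈ A, x ∈ B ∨ x ∈ D) :
    A.card ≤ B.card + D.card := by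
  classical
  exact le_trans (card_le_card fun x hx => mem_union.2 (hs x hx)) (card_union_le _ _)

namespace Cf

variable {d : V → V → ℕ} {f : V → ℕ} {Q : Finset (V × ℕ)} {C : Finset V} {vt : V → Prop}
  {m : ℕ} {c : ℕ → V} {lo hi : V → ℤ} {s e : ℕ → ℤ} (h : Cf d f Q C vt m c lo hi s e)
include h

theorem Lmono {a k : ℕ} (hk : a < k) (hm : k < m) : e a + 2 * s a + 1 ≤ e k + 2 * s k := by
  have := h.smono (show a + 1 ≤ k by omega) hm.le
  have := h.sS a (by omega)
  have := h.fp (show a < m by omega)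
  have := h.ebud a k (by omega) hm
  omega

theorem Rmono {a k : ℕ} (hk : a < k) (hm : k < m) :
    e a + 2 * s (a + 1) + 1 ≤ e k + 2 * s (k + 1) := by
  have := h.smono (show a + 1 ≤ k by omega) hm.le
  have := h.sS k hm
  have := h.fp hm
  have := h.ebud a k (by omega) hm
  omega

theorem pv_le {k : ℕ} (hk : k < m) : (Pv d f Q (c k)).card ≤ f (c k) :=
  h.priv_le hk (fun _ hπ => (mem_Pv.1 hπ).1) fun _ hπ => (mem_Pv.1 hπ).2

/-- Location of the points of a range of balls. -/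
theorem sg_loc {a b : ℕ} (hb : b < m) {π : V × ℕ} (hπ : π ∈ Sg d f Q c a (b + 1)) :
    e a + 2 * s a - 1 ≤ lo π.1 - π.2 ∧ hi π.1 + π.2 ≤ e b + 2 * s (b + 1) + 1 ∧
      (¬ Act d f Q (c a) → e a + 2 * s a ≤ lo π.1 - π.2) ∧
      (¬ Act d f Q (c b) → hi π.1 + π.2 ≤ e b + 2 * s (b + 1)) := by
  obtain ⟨hQ, k, k1, k2, k3⟩ := mem_Sg.1 hπ
  obtain ⟨l1, l2, l3, l4⟩ := h.loc (show k < m by omega) hQ k3
  have m1 : a = k ∨ e a + 2 * s a + 1 ≤ e k + 2 * s k := by
    rcases Nat.eq_or_lt_of_le k1 with r | r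
    · exact Or.inl r
    · exact Or.inr (h.Lmono r (by omega))
  have m2 : k = b ∨ e k + 2 * s (k + 1) + 1 ≤ e b + 2 * s (b + 1) := by
    rcases Nat.eq_or_lt_of_le (show k ≤ b by omega) with r | r
    · exact Or.inl r
    · exact Or.inr (h.Rmono r hb)
  refine ⟨?_, ?_, fun n => ?_, fun n => ?_⟩
  · rcases m1 with rfl | m1 <;> omega
  · rcases m2 with rfl | m2 <;> omega
  · rcases m1 with rfl | m1
    · have := l4 n; omega
    · omega
  · rcases m2 with rfl | m2
    · have := l4 n; omega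
    · omega

theorem sg_card {a b : ℕ} (hab : a ≤ b) (hb : b < m) :
    ((Sg d f Q c a (b + 1)).card : ℤ) ≤ s (b + 1) - s a + 1 := by
  have := h.smono (show a ≤ b + 1 by omega) hb
  have := h.eanti a b hab hb
  refine h.cnt Sg_sub (e a + 2 * s a - 1) _ (by omega) fun π hπ => ?_
  have := h.sg_loc hb hπ
  omega

theorem sg_card' {a b : ℕ} (hab : a ≤ b) (hb : b < m) (h1 : ¬ Act d f Q (c a))
    (h2 : ¬ Act d f Q (c b)) : ((Sg d f Q c a (b + 1)).card : ℤ) ≤ s (b + 1) - s a := by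
  have := h.smono hab hb.le
  have := h.sS b hb
  have := h.fp hb
  have := h.eanti a b hab hb
  refine h.cnt Sg_sub (e a + 2 * s a) _ (by omega) fun π hπ => ?_
  obtain ⟨-, -, l1, l2⟩ := h.sg_loc hb hπ
  have := l1 h1
  have := l2 h2
  omega

theorem lft_card : ∀ a, a ≤ m → (∀ k, k + 1 < a → ¬ Mk d f Q (c k) (c (k + 1))) →
    ((Lft d f Q m c a).card : ℤ) ≤ s a ∧ ∀ j, j < a → (Pv d f Q (c j)).card + 1 ≤ f (c j) →
      ((Lft d f Q m c a).card : ℤ) + 1 ≤ s a := by
  intro a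
  induction a with
  | zero =>
    intro _ _
    have : Lft d f Q m c 0 = ∅ := by
      refine eq_empty_of_forall_notMem fun π hπ => ?_
      obtain ⟨hQ, hn⟩ := mem_Lft.1 hπ
      obtain ⟨k, k1, k2⟩ := h.inball hQ
      have := hn k (by omega) k1
      omega
    rw [this, h.s0]
    exact ⟨by simp, fun j hj => by omega⟩
  | succ a ih =>
    intro ha hn
    obtain ⟨i1, i2⟩ := ih (by omega) fun k hk => hn k (by omega)
    have hs := card_le_add (A := Lft d f Q m c (a + 1)) (B := Lft d f Q m c a)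
      (D := Pv d f Q (c a)) (by
      intro π hπ
      obtain ⟨hQ, hb⟩ := mem_Lft.1 hπ
      by_cases hin : d (c a) π.1 ≤ f (c a)
      · refine Or.inr (mem_Pv.2 ⟨hQ, hin, fun w w1 w2 => ?_⟩)
        by_contra w3
        rcases h.pt ha hQ hin with p0 | p1
        · rcases h.other ha hin w1 w2 (by omega) with ⟨j, e1, rfl⟩ | ⟨e1, rfl⟩
          · subst e1
            exact hn j (by omega) ⟨π.1, p0 ▸ hQ, by omega, hin⟩
          · exact w3 (hb _ le_rfl e1)
        · exact w3 (p1.2.1.2.1 w w1 w2)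
      · refine Or.inl (mem_Lft.2 ⟨hQ, fun k k1 k2 => ?_⟩)
        rcases Nat.eq_or_lt_of_le k1 with r | r
        · subst r; omega
        · exact hb k r k2)
    have := h.pv_le ha
    have := h.sS a ha
    refine ⟨by omega, fun j hj hp => ?_⟩
    rcases Nat.eq_or_lt_of_le (show j ≤ a by omega) with r | r
    · subst r; omega
    · have := i2 j r hp; omega

theorem cardQ : s m + 1 ≤ Q.card := by
  have := h.pre.card
  have := h.sm
  omega

theorem exists_mk : ∃ k, k + 1 < m ∧ Mk d f Q (c k) (c (k + 1)) := by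
  by_contra hn
  push Not at hn
  have h1 := (h.lft_card m le_rfl hn).1
  have : Q.card ≤ (Lft d f Q m c m).card :=
    card_le_card fun π hπ => mem_Lft.2 ⟨hπ, fun k k1 k2 => by omega⟩
  have := h.cardQ
  omega

omit h in
theorem split (a : ℕ) : Q.card ≤ (Lft d f Q m c a).card + (Sg d f Q c a m).card := by
  refine card_le_add fun π hπ => ?_
  by_cases hn : ∃ k, a ≤ k ∧ k < m ∧ d (c k) π.1 ≤ f (c k)
  · exact Or.inr (mem_Sg.2 ⟨hπ, hn⟩)
  · push Not at hn
    exact Or.inl (mem_Lft.2 ⟨hπ, hn⟩)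

/-- All points lie close to a vertex that lies in two balls. -/
theorem near_junction {k : ℕ} (hk : k + 1 < m) {p : V} (h1 : d (c k) p ≤ f (c k))
    (h2 : d (c (k + 1)) p ≤ f (c (k + 1))) {π : V × ℕ} (hπ : π ∈ Q) :
    (d π.1 p : ℤ) + π.2 ≤ max (2 * (s m - s (k + 1)) + 1) (2 * s (k + 1) + 1) := by
  obtain ⟨n, rfl⟩ : ∃ n, m = n + 1 := ⟨m - 1, by omega⟩
  obtain ⟨j, j1, j2⟩ := h.inball hπ
  have l := h.sg_loc (a := 0) (b := n) (by omega) (mem_Sg.2 ⟨hπ, j, by omega, j1, j2⟩)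
  have b1 := (h.ball (by omega) p).1 h1
  have b2 := (h.ball hk p).1 h2
  have := h.dle π.1 p
  have := h.s0
  have := h.eanti 0 k (by omega) (by omega)
  have := h.eanti (k + 1) n (by omega) (by omega)
  omega

theorem pairwise {π π' : V × ℕ} (hπ : π ∈ Q) (hπ' : π' ∈ Q) :
    (d π.1 π'.1 : ℤ) + π.2 + π'.2 ≤ 2 * s m + 2 := by
  obtain ⟨j, j1, j2⟩ := h.inball hπ
  obtain ⟨j', j1', j2'⟩ := h.inball hπ'
  obtain ⟨n, rfl⟩ : ∃ n, m = n + 1 := ⟨m - 1, by omega⟩
  have l := h.sg_loc (a := 0) (b := n) (by omega) (mem_Sg.2 ⟨hπ, j, by omega, j1, j2⟩)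
  have l' := h.sg_loc (a := 0) (b := n) (by omega) (mem_Sg.2 ⟨hπ', j', by omega, j1', j2'⟩)
  have := h.dle π.1 π'.1
  have := h.s0
  have := h.eanti 0 n (by omega) (by omega)
  omega

/-- The private boundary of a ball outside the cluster is a single vertex. -/
theorem out_sing {z y p t : V} (hz : 0 < f z) (hzC : z ∉ C) (hy : PB d f z y) (hp : d p y = 1)
    (ht : t ∈ C) (htp : d t p ≤ f t)
    (hall : ∀ y', PB d f z y' → ∃ w ∈ C, Ov d f t w ∧ d w y' ≤ f w + 1) :
    Sing d f z y ∧ f z < d z p := by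
  have T := h.pre.tm
  have hzp : f z < d z p := by
    by_contra hn
    exact hzC (h.pre.closed t ht z ⟨h.pre.fpos t ht, hz, p, htp, by omega⟩)
  have hyp : d y p = 1 := by rw [T.symm]; exact hp
  have a1 := T.adj_cases z hp
  have a2 := hy.1
  refine ⟨⟨hy, fun y' hy' => ?_, by omega⟩, hzp⟩
  obtain ⟨w, w1, ⟨-, w2, q, q1, q2⟩, w3⟩ := hall y' hy'
  have hwz : w ≠ z := fun e0 => hzC (e0 ▸ w1)
  have htz : t ≠ z := fun e0 => hzC (e0 ▸ ht)
  have b1 := hy.2.1 w hwz w2
  have b2 := hy.2.1 t htz (h.pre.fpos t ht)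
  have s1 : d q p < d q y := T.side_ball hyp (by omega) b2 q1
  have s2 : d w p < d w y := T.side_ctr hyp s1 b1 q2
  have s3 : d y' y < d y' p := T.side_ball hp (by omega) hzp hy'.1
  have := T.cut p y w y' hp s2 s3
  have := T.adj_cases w hp
  exact T.eq_of _ _ (by omega)

end Cf

end Pool.Agent.MP_8cd4dc_co

end MrgPart1

-- ======== part 2: formerly Pool.Agent.MP_8cd4dc_co.First
section MrgPart2

set_option autoImplicit false

namespace Pool.Agent.MP_8cd4dc_co

open Finset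

variable {V : Type*}

namespace Cf

variable {d : V → V → ℕ} {f : V → ℕ} {Q : Finset (V × ℕ)} {C : Finset V} {vt : V → Prop}
  {m : ℕ} {c : ℕ → V} {lo hi : V → ℤ} {s e : ℕ → ℤ} (h : Cf d f Q C vt m c lo hi s e)
  {i : ℕ} (hi1 : i + 1 < m) (hf : ∀ k, k < i → ¬ Mk d f Q (c k) (c (k + 1)))
include h hi1 hf

theorem hS {a : ℕ} (ha : a ≤ i + 1) : s m - s a + 1 ≤ (Sg d f Q c a m).card := by
  have := (h.lft_card a (by omega) fun k hk => hf k (by omega)).1
  have := split (d := d) (f := f) (Q := Q) (m := m) (c := c) a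
  have := h.cardQ
  omega

theorem hfull {j : ℕ} (hj : j ≤ i) : f (c j) ≤ (Pv d f Q (c j)).card := by
  by_contra hn
  have := (h.lft_card (i + 1) (by omega) fun k hk => hf k (by omega)).2 j (by omega) (by omega)
  have := split (d := d) (f := f) (Q := Q) (m := m) (c := c) (i + 1)
  have := h.cardQ
  obtain ⟨n, rfl⟩ : ∃ n, m = n + 1 := ⟨m - 1, by omega⟩
  have := h.sg_card (a := i + 1) (b := n) (by omega) (by omega)
  omega

theorem act_of {j : ℕ} (hj : j ≤ i) (hpb : ∀ y, PB d f (c j) y → (y, 0) ∉ Q) :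
    Act d f Q (c j) := by
  by_contra hn
  have := h.priv_lt (k := j) (by omega) (R := Pv d f Q (c j)) (fun _ hπ => (mem_Pv.1 hπ).1)
    (fun _ hπ => (mem_Pv.1 hπ).2) hn hpb
  have := h.hfull hi1 hf hj
  omega

theorem privj {j : ℕ} (hj : j < i) {π : V × ℕ} (hπ : π ∈ Q) (hin : d (c j) π.1 ≤ f (c j)) :
    ∀ w, w ≠ c j → 0 < f w → f w < d w π.1 := by
  intro w w1 w2
  by_contra w3
  rcases h.pt (by omega) hπ hin with p0 | p1
  · rcases h.other (by omega) hin w1 w2 (by omega) with ⟨k, e1, rfl⟩ | ⟨e1, rfl⟩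
    · subst e1
      exact hf k (by omega) ⟨π.1, p0 ▸ hπ, by omega, hin⟩
    · exact hf j hj ⟨π.1, p0 ▸ hπ, hin, by omega⟩
  · exact w3 (p1.2.1.2.1 w w1 w2)

variable {q0 : V} (hq0 : (q0, 0) ∈ Q) (q1 : d (c i) q0 ≤ f (c i))
  (q2 : d (c (i + 1)) q0 ≤ f (c (i + 1)))
include hq0 q1 q2

theorem hW {a : ℕ} (ha : a ≤ i) : s (i + 1) - s a + 1 ≤ (Sg d f Q c a (i + 1)).card := by
  classical
  have := (h.lft_card a (by omega) fun k hk => hf k (by omega)).1
  have := split (d := d) (f := f) (Q := Q) (m := m) (c := c) a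
  have := h.cardQ
  have hm : (q0, 0) ∈ Sg d f Q c a (i + 1) := mem_Sg.2 ⟨hq0, i, ha, by omega, q1⟩
  have := card_erase_of_mem hm
  have := card_pos.2 ⟨_, hm⟩
  have := card_le_add (A := Sg d f Q c a m) (B := (Sg d f Q c a (i + 1)).erase (q0, 0))
    (D := Sg d f Q c (i + 1) m) (by
    intro π hπ
    obtain ⟨hQ, k, k1, k2, k3⟩ := mem_Sg.1 hπ
    by_cases e0 : π = (q0, 0)
    · exact Or.inr (mem_Sg.2 ⟨hQ, i + 1, le_rfl, hi1, e0 ▸ q2⟩)
    by_cases hk : k ≤ i
    · exact Or.inl (mem_erase.2 ⟨e0, mem_Sg.2 ⟨hQ, k, k1, by omega, k3⟩⟩)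
    · exact Or.inr (mem_Sg.2 ⟨hQ, k, by omega, k2, k3⟩))
  obtain ⟨n, rfl⟩ : ∃ n, m = n + 1 := ⟨m - 1, by omega⟩
  have := h.sg_card (a := i + 1) (b := n) (by omega) (by omega)
  omega

theorem act_i : Act d f Q (c i) := by
  by_contra hn
  have := h.sg_card' (a := i) (b := i) le_rfl (by omega) hn hn
  have := h.hW hi1 hf hq0 q1 q2 le_rfl
  omega

theorem q0_loc : lo q0 = e i + 2 * s (i + 1) ∧ hi q0 = e i + 2 * s (i + 1) := by
  classical
  obtain ⟨x, hx, hxQ⟩ := h.act_i hi1 hf hq0 q1 q2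
  have b1 := (h.ball (by omega) q0).1 q1
  have b2 := (h.ball hi1 q0).1 q2
  have b3 := h.par q0
  have b4 := h.ebud i (i + 1) (by omega) hi1
  have b5 := h.dc i (by omega) q0
  have b6 := h.sS i (by omega)
  have b7 := h.fp (show i < m by omega)
  by_contra hn
  by_cases h1 : f (c i) = 1
  · have e0 : c i = q0 := h.pre.tm.eq_of _ _ (by omega)
    have := h.two hq0 hxQ (by simp)
    have := hx.2.2
    rw [e0] at this h1
    simp only at *
    omega
  have hnot : (q0, 0) ∉ (Pv d f Q (c i)).erase (x, 1) := fun a => by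
    have := (mem_Pv.1 (mem_of_mem_erase a)).2.2 (c (i + 1)) (h.cinj (by omega) hi1).symm (h.fp hi1)
    simp only at this
    omega
  have := h.int_card (k := i) (by omega) (R := insert (q0, 0) ((Pv d f Q (c i)).erase (x, 1)))
    (by
      intro π hπ
      rcases mem_insert.1 hπ with r | r
      · exact r ▸ hq0
      · exact (mem_Pv.1 (mem_of_mem_erase r)).1)
    (by
      intro π hπ
      rcases mem_insert.1 hπ with r | r
      · subst r
        exact ⟨rfl, by omega, show d (c i) q0 < f (c i) by omega⟩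
      · obtain ⟨p1, p2, p3⟩ := mem_Pv.1 (mem_of_mem_erase r)
        rcases h.priv_cases (by omega) p1 p2 p3 with a | a | a
        · exact absurd (Prod.ext (hx.2.1 _ a.2.1) a.1) (ne_of_mem_erase r)
        · exact absurd (a.1 ▸ p1) (h.act_pb hx hxQ a.2)
        · exact a)
  rw [card_insert_of_notMem hnot] at this
  have := pred_card_le_card_erase (s := Pv d f Q (c i)) (a := (x, 1))
  have := h.hfull hi1 hf le_rfl
  omega

/-- No further point lies close to the balls `a, …, i`. -/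
theorem no_extra {a : ℕ} (ha : a ≤ i) {y : V} (hy : ∀ k, a ≤ k → k ≤ i → f (c k) < d (c k) y)
    (l1 : e a + 2 * s a - 1 ≤ lo y) (l2 : hi y ≤ e i + 2 * s (i + 1) + 1) : (y, 0) ∉ Q := by
  classical
  intro hyQ
  have hnot : (y, 0) ∉ Sg d f Q c a (i + 1) := fun r => by
    obtain ⟨-, k, k1, k2, k3⟩ := mem_Sg.1 r
    have := hy k k1 (by omega)
    simp only at k3
    omega
  have := h.smono (show a ≤ i + 1 by omega) hi1.le
  have := h.eanti a i ha (by omega)
  have := h.cnt (R := insert (y, 0) (Sg d f Q c a (i + 1))) (insert_subset hyQ Sg_sub)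
    (e a + 2 * s a - 1) (s (i + 1) - s a + 1) (by omega) (by
      intro π hπ
      rcases mem_insert.1 hπ with r | r
      · subst r
        simp only
        omega
      · have := h.sg_loc (b := i) (by omega) r
        omega)
  rw [card_insert_of_notMem hnot] at this
  have := h.hW hi1 hf hq0 q1 q2 ha
  omega

theorem no_extra1 {z y : V} (hz : z ≠ c i) (hy : PB d f z y) (l : d (c i) y ≤ f (c i) + 1) :
    (y, 0) ∉ Q := by
  have := hy.2.1 (c i) hz.symm (h.fp (by omega))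
  have := h.dc i (by omega) y
  have := h.sS i (by omega)
  refine h.no_extra hi1 hf hq0 q1 q2 le_rfl (fun k k1 k2 => ?_) (by omega) (by omega)
  have : k = i := by omega
  subst this
  omega

/-- The first overloaded ball destroys the private boundary of its right neighbour. -/
theorem loc_case (hz : ∀ y, PB d f (c (i + 1)) y → d (c i) y ≤ f (c i) + 1) :
    ¬ Act d f Q (c (i + 1)) ∧ 7 ≤ s m := by
  have hne := h.cinj (show i < i + 1 by omega) hi1
  have ⟨z1, z2⟩ := h.q0_loc hi1 hf hq0 q1 q2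
  have b4 := h.ebud i (i + 1) (by omega) hi1
  have b4' := h.eanti i (i + 1) (by omega) hi1
  have b6 := h.sS i (by omega)
  have b7 := h.fp (show i < m by omega)
  have b8 := h.sS (i + 1) hi1
  have b9 := h.fp hi1
  have hy : ∀ y, PB d f (c (i + 1)) y → e (i + 1) + 2 * s (i + 1) ≤ lo y ∧
      hi y = e i + 2 * s (i + 1) + 1 := fun y py => by
    have := py.2.1 (c i) hne b7
    have := hz y py
    have := (h.ball hi1 y).1 py.1
    have := h.dc i (by omega) y
    omega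
  have hpb : ∀ y, PB d f (c (i + 1)) y → (y, 0) ∉ Q := fun y py =>
    h.no_extra1 hi1 hf hq0 q1 q2 hne.symm py (hz y py)
  have hna : ¬ Act d f Q (c (i + 1)) := by
    rintro ⟨x, hx, hxQ⟩
    have := hy x hx.1
    have := h.two hq0 hxQ (by simp)
    have := h.dle q0 x
    have := h.par x
    simp only at *
    omega
  refine ⟨hna, ?_⟩
  have hs := h.hS hi1 hf le_rfl
  obtain ⟨n, rfl⟩ : ∃ n, m = n + 1 := ⟨m - 1, by omega⟩
  have b10 := h.smono (show i + 1 + 1 ≤ n + 1 by omega) le_rfl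
  have b11 := h.eanti (i + 1) n (by omega) (by omega)
  by_cases ho : e (i + 1) < e i
  · exfalso
    have := h.cnt (R := Sg d f Q c (i + 1) (n + 1)) Sg_sub (e (i + 1) + 2 * s (i + 1) + 1)
      (s (n + 1) - s (i + 1)) (by omega) (by
      intro π hπ
      have l := h.sg_loc (b := n) (by omega) hπ
      refine ⟨?_, by omega⟩
      obtain ⟨hQ, k, k1, k2, k3⟩ := mem_Sg.1 hπ
      have l' := h.loc k2 hQ k3
      rcases Nat.eq_or_lt_of_le k1 with r | r
      · subst r
        have p0 := l'.2.2.2 hna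
        by_contra hn
        have a1 := h.dc (i + 1) hi1 π.1
        have : ¬ PB d f (c (i + 1)) π.1 := fun a => hpb _ a (p0 ▸ hQ)
        have : ∃ w, w ≠ c (i + 1) ∧ 0 < f w ∧ d w π.1 ≤ f w := by
          by_contra hw
          push Not at hw
          exact this ⟨k3, hw, Or.inr (by omega)⟩
        obtain ⟨w, w1, w2, w3⟩ := this
        rcases h.other hi1 k3 w1 w2 w3 with ⟨j, e1, rfl⟩ | ⟨e1, rfl⟩
        · have : j = i := by omega
          subst this
          have := (h.ball (by omega) _).1 w3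
          have := h.par π.1
          have := h.dle π.1 q0
          have := h.two hQ hq0 (fun e0 => by rw [e0] at hn; simp only at hn; omega)
          simp only at this
          omega
        · have := (h.ball e1 _).1 w3
          have := h.Lmono (show i + 1 < i + 1 + 1 by omega) e1
          omega
      · have := h.ebud i k (by omega) k2
        have := h.smono (show i + 1 + 1 ≤ k by omega) k2.le
        omega)
    omega
  obtain ⟨y, py⟩ := h.pre.irr _ b9
  have y1 := hy y py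
  have y2 := h.par y
  have y3 := h.dc (i + 1) hi1 y
  have y4 := py.2.2
  have F1 : f (c (i + 1)) = 1 := by omega
  have hfar : ∃ π ∈ Sg d f Q c (i + 1) (n + 1), e i + 2 * s (n + 1) < hi π.1 + π.2 := by
    by_contra hn
    push Not at hn
    have := h.cnt (R := Sg d f Q c (i + 1) (n + 1)) Sg_sub (e (i + 1) + 2 * s (i + 1))
      (s (n + 1) - s (i + 1)) (by omega) (by
      intro π hπ
      have := (h.sg_loc (b := n) (by omega) hπ).2.2.1 hna
      have := hn π hπ
      omega)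
    omega
  obtain ⟨π0, p1, p2⟩ := hfar
  have l := h.sg_loc (b := n) (by omega) p1
  have en : e n = e i := by omega
  have an : Act d f Q (c n) := by
    by_contra hn
    have := l.2.2.2 hn
    omega
  have n2 : i + 1 + 1 ≤ n := by
    by_contra hn
    have : n = i + 1 := by omega
    exact hna (this ▸ an)
  have big : ∀ k, i + 1 + 1 ≤ k → k ≤ n → Act d f Q (c k) → 2 ≤ f (c k) := by
    intro k k1 k2 ak
    by_contra hn
    have := h.fp (show k < n + 1 by omega)
    rcases h.act_one (by omega) ak (by omega) with ⟨j, e1, e2⟩ | ⟨e1, e2⟩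
    · have := h.eanti i j (by omega) (by omega)
      have := h.eanti k n k2 (by omega)
      omega
    · have := h.eanti i k (by omega) (by omega)
      have := h.eanti (k + 1) n (by omega) (by omega)
      omega
  have c1 := card_le_add (A := Sg d f Q c (i + 1) (n + 1)) (B := Sg d f Q c (i + 1) n)
    (D := Pv d f Q (c n)) (by
    intro π hπ
    obtain ⟨hQ, k, k1, k2, k3⟩ := mem_Sg.1 hπ
    by_cases hk : k < n
    · exact Or.inl (mem_Sg.2 ⟨hQ, k, k1, hk, k3⟩)
    have : k = n := by omega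
    subst this
    by_cases hp : ∀ w, w ≠ c k → 0 < f w → f w < d w π.1
    · exact Or.inr (mem_Pv.2 ⟨hQ, k3, hp⟩)
    push Not at hp
    obtain ⟨w, w1, w2, w3⟩ := hp
    rcases h.other k2 k3 w1 w2 w3 with ⟨j, e1, rfl⟩ | ⟨e1, rfl⟩
    · exact Or.inl (mem_Sg.2 ⟨hQ, j, by omega, by omega, w3⟩)
    · omega)
  have c2 := card_le_add (A := Sg d f Q c (i + 1) n) (B := Sg d f Q c (i + 1) (i + 1 + 1))
    (D := Sg d f Q c (i + 1 + 1) n) (by
    intro π hπ
    obtain ⟨hQ, k, k1, k2, k3⟩ := mem_Sg.1 hπ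
    by_cases hk : k = i + 1
    · exact Or.inl (mem_Sg.2 ⟨hQ, k, k1, by omega, k3⟩)
    · exact Or.inr (mem_Sg.2 ⟨hQ, k, by omega, k2, k3⟩))
  have c3 := h.sg_card' (a := i + 1) (b := i + 1) le_rfl hi1 hna hna
  have c4 := h.pv_le (show n < n + 1 by omega)
  have c5 := h.sS n (by omega)
  have c6 := big n n2 le_rfl an
  have c7 : 2 ≤ s (i + 1) := by
    have := h.smono (Nat.zero_le i) (by omega)
    have := h.s0
    by_contra hn
    rcases h.act_one (by omega) (h.act_i hi1 hf hq0 q1 q2) (by omega) with ⟨j, e1, e2⟩ | ⟨e1, e2⟩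
    · have := h.smono (Nat.zero_le j) (by omega)
      have := h.sS j (by omega)
      have := h.fp (show j < n + 1 by omega)
      subst e1
      omega
    · omega
  have c8 := h.smono n2 (by omega)
  rcases Nat.eq_or_lt_of_le n2 with r | r
  · exfalso
    have : Sg d f Q c (i + 1 + 1) n = ∅ := eq_empty_of_forall_notMem fun π hπ => by
      obtain ⟨-, k, k1, k2, -⟩ := mem_Sg.1 hπ
      omega
    rw [this, card_empty] at c2
    omega
  obtain ⟨n', rfl⟩ : ∃ n', n = n' + 1 := ⟨n - 1, by omega⟩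
  have c9 : s (i + 1 + 1) + 2 ≤ s (n' + 1) := by
    by_cases a1 : Act d f Q (c (i + 1 + 1))
    · have := big _ le_rfl n2 a1
      have := h.sS (i + 1 + 1) (by omega)
      have := h.smono (show i + 1 + 1 + 1 ≤ n' + 1 by omega) (by omega)
      omega
    by_cases a2 : Act d f Q (c n')
    · have := big n' (by omega) (by omega) a2
      have := h.sS n' (by omega)
      have := h.smono (show i + 1 + 1 ≤ n' by omega) (by omega)
      omega
    have := h.sg_card' (a := i + 1 + 1) (b := n') (by omega) (by omega) a1 a2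
    omega
  omega

end Cf

end Pool.Agent.MP_8cd4dc_co

end MrgPart2

-- ======== part 3: formerly Pool.Agent.MP_8cd4dc_co.Exit
section MrgPart3

set_option autoImplicit false

namespace Pool.Agent.MP_8cd4dc_co

open Finset

variable {V : Type*}

namespace Cf

variable {d : V → V → ℕ} {f : V → ℕ} {Q : Finset (V × ℕ)} {C : Finset V} {vt : V → Prop}
  {m : ℕ} {c : ℕ → V} {lo hi : V → ℤ} {s e : ℕ → ℤ} (h : Cf d f Q C vt m c lo hi s e)
  {i : ℕ} (hi1 : i + 1 < m) (hf : ∀ k, k < i → ¬ Mk d f Q (c k) (c (k + 1)))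
  {q0 : V} (hq0 : (q0, 0) ∈ Q) (q1 : d (c i) q0 ≤ f (c i))
  (q2 : d (c (i + 1)) q0 ≤ f (c (i + 1)))
include h hi1 hf hq0 q1 q2

theorem out_single {z : V} (hz : 0 < f z) (hzC : z ∉ C) (hv : ¬ vt (c i))
    (hall : ∀ y, PB d f z y → d (c i) y ≤ f (c i) + 1) :
    ∃ p y, Ex d f Q C vt p y 1 ∧ d (c i) p ≤ f (c i) := by
  have T := h.pre.tm
  have hi0 : i < m := by omega
  have hc := h.cmem hi0
  have hp0 := h.fp hi0
  obtain ⟨y, py⟩ := h.pre.irr z hz
  have y1 := py.2.1 (c i) (fun e0 => hzC (e0 ▸ hc)) hp0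
  have y2 := hall y py
  obtain ⟨p, p1, p2⟩ := T.step (c i) y (f (c i)) (by omega)
  have hs := h.out_sing hz hzC py p2 hc p1.le fun y' py' =>
    ⟨c i, hc, ⟨hp0, hp0, p, p1.le, p1.le⟩, hall y' py'⟩
  refine ⟨p, y, ⟨p2, ⟨z, hz, hzC, hs.1, hs.2⟩, ⟨c i, hc, hv, p1.le⟩, ?_⟩, p1.le⟩
  obtain ⟨x, hx, hxQ⟩ := h.act_i hi1 hf hq0 q1 q2
  have b6 := h.sS i hi0
  by_cases hpx : p = x
  · subst hpx
    have := h.hW hi1 hf hq0 q1 q2 le_rfl
    refine ⟨Sg d f Q c i (i + 1), Sg_sub, f (c i), hp0, by omega, fun π hπ π' hπ' _ => ?_,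
      fun π hπ => ?_⟩
    · have := h.sg_loc hi0 hπ
      have := h.sg_loc hi0 hπ'
      have := h.dle π.1 π'.1
      omega
    · obtain ⟨hQ, k, k1, k2, k3⟩ := mem_Sg.1 hπ
      have : k = i := by omega
      subst this
      rcases h.pt hi0 hQ k3 with a | a
      · have := T.tri π.1 (c k) p
        have := T.symm π.1 (c k)
        omega
      · have := hx.2.1 _ a.2.1
        rw [this, T.self]
        omega
  · have : ∃ w, w ≠ c i ∧ 0 < f w ∧ d w p ≤ f w := by
      by_contra hw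
      push Not at hw
      exact hpx (hx.2.1 p ⟨p1.le, hw, Or.inr p1⟩)
    obtain ⟨w, w1, w2, w3⟩ := this
    have hj : ∃ k, k + 1 < m ∧ d (c k) p ≤ f (c k) ∧ d (c (k + 1)) p ≤ f (c (k + 1)) := by
      rcases h.other hi0 p1.le w1 w2 w3 with ⟨j, e1, rfl⟩ | ⟨e1, rfl⟩
      · subst e1
        exact ⟨j, hi0, w3, p1.le⟩
      · exact ⟨i, e1, p1.le, w3⟩
    obtain ⟨k, k1, k2, k3⟩ := hj
    have a1 := h.smono (Nat.zero_le k) (by omega)
    have a2 := h.sS k (by omega)
    have a3 := h.fp (show k < m by omega)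
    have a4 := h.sS (k + 1) k1
    have a5 := h.fp k1
    have a6 := h.smono (show k + 1 + 1 ≤ m by omega) le_rfl
    have a7 := h.s0
    have a8 := h.sm
    refine ⟨Q, Subset.rfl, ∑ v ∈ C, f v, by omega, h.pre.card, fun π hπ π' hπ' _ => ?_,
      fun π hπ => ?_⟩
    · have := h.pairwise hπ hπ'
      omega
    · have := h.near_junction k1 k2 k3 hπ
      omega

theorem pair_case {j : ℕ} (hj : j + 1 = i) (hv : ¬ vt (c i)) (hv' : ¬ vt (c j))
    (hall : ∀ y, PB d f (c j) y → d (c i) y ≤ f (c i) + 1) :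
    (∃ p y, Ex d f Q C vt p y 1 ∧ ∃ k, k ≤ i ∧ d (c k) p ≤ f (c k)) ∨
      (¬ Act d f Q (c (i + 1)) ∧ 7 ≤ s m) := by
  subst hj
  have T := h.pre.tm
  have hi0 : j + 1 < m := by omega
  have hj0 : j < m := by omega
  have hne := h.cinj (show j < j + 1 by omega) hi0
  have f1 := h.fp hi0
  have f0 := h.fp hj0
  have s1 := h.sS _ hi0
  have s0 := h.sS _ hj0
  have e1 := h.eanti j (j + 1) (by omega) hi0
  have e2 := h.ebud j (j + 1) hj0 hi0
  have aj := h.act_of hi1 hf (show j ≤ j + 1 by omega) fun y py =>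
    h.no_extra1 hi1 hf hq0 q1 q2 hne py (hall y py)
  have ai := h.act_i hi1 hf hq0 q1 q2
  have hW := h.hW hi1 hf hq0 q1 q2 (show j ≤ j + 1 by omega)
  obtain ⟨x, hx, hxQ⟩ := id aj
  have x1 := hall x hx.1
  have x2 := hx.1.2.1 (c (j + 1)) hne.symm f1
  have x3 := hx.2.2
  have x4 := h.dc _ hi0 x
  have x5 := h.dc _ hj0 x
  have x6 := h.par x
  have eo : e (j + 1) + 1 = e j := by omega
  have F1 : f (c j) = 1 := by
    by_contra hn
    have := h.cnt (R := Sg d f Q c j (j + 1 + 1)) Sg_sub (e j + 2 * s j + 1)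
      (s (j + 1 + 1) - s j) (by omega) (by
      intro π hπ
      have l := h.sg_loc hi0 hπ
      refine ⟨?_, by omega⟩
      obtain ⟨hQ, k, k1, k2, k3⟩ := mem_Sg.1 hπ
      rcases Nat.eq_or_lt_of_le k1 with r | r
      · subst r
        rcases h.priv_cases hj0 hQ k3 (h.privj hi1 hf (by omega) hQ k3) with a | a | a
        · have := hx.2.1 _ a.2.1
          rw [this]
          omega
        · exact absurd (a.1 ▸ hQ) (h.act_pb hx hxQ a.2)
        · have := h.dc _ hj0 π.1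
          omega
      · have : k = j + 1 := by omega
        subst this
        have := h.loc hi0 hQ k3
        omega)
    omega
  have g1 := h.dc _ hj0 (c j)
  have g2 := h.dc _ hi0 (c j)
  have g3 := h.par (c j)
  have g4 := T.self (c j)
  have g5 : d (c (j + 1)) (c j) ≤ f (c (j + 1)) := by omega
  obtain ⟨z, z1, z2, z3, z4⟩ := h.pre.r2 _ (h.cmem hi0) _ (h.cmem hj0) ai aj hv hv' hne.symm g5
  have yl : ∀ y, PB d f z y → f (c (j + 1)) < d (c (j + 1)) y ∧ f (c j) < d (c j) y ∧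
      e j + 2 * s j - 1 ≤ lo y ∧ hi y ≤ e (j + 1) + 2 * s (j + 1 + 1) + 1 := fun y py => by
    have := py.2.1 _ z1.symm f1
    have := py.2.1 _ z2.symm f0
    have := z4 y py
    have := h.dc _ hi0 y
    have := h.dc _ hj0 y
    omega
  have hpb : ∀ y, PB d f z y → (y, 0) ∉ Q := fun y py => by
    have := yl y py
    refine h.no_extra hi1 hf hq0 q1 q2 (show j ≤ j + 1 by omega) (fun k k1 k2 => ?_)
      (by omega) (by omega)
    rcases Nat.eq_or_lt_of_le k1 with r | r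
    · subst r; omega
    · have : k = j + 1 := by omega
      subst this; omega
  by_cases hzC : z ∈ C
  · obtain ⟨k, k1, rfl⟩ := (h.mem z).1 hzC
    rcases lt_trichotomy k (j + 1 + 1) with l | l | l
    · exfalso
      have l1 : k < j := by
        by_contra hn
        rcases (show k = j ∨ k = j + 1 by omega) with r | r
        · exact z2 (r ▸ rfl)
        · exact z1 (r ▸ rfl)
      obtain ⟨x', hx', -⟩ := h.act_of hi1 hf (show k ≤ j + 1 by omega) hpb
      have := yl x' hx'.1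
      have := hx'.2.2
      have := h.dc k k1 x'
      have := h.dc _ hj0 x'
      have := h.par x'
      have := h.sS k k1
      have := h.fp k1
      have := h.smono (show k + 1 ≤ j by omega) hj0.le
      have := h.eanti k j l1.le hj0
      have := h.ebud k (j + 1) k1 hi0
      omega
    · subst l
      refine Or.inr (h.loc_case hi1 hf hq0 q1 q2 fun y py => ?_)
      have := yl y py
      have := z4 y py
      have := (h.ball k1 y).1 py.1
      have := h.dc _ hi0 y
      have := h.dc _ hj0 y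
      have := h.ebud (j + 1) (j + 1 + 1) hi0 k1
      omega
    · exfalso
      obtain ⟨y, py⟩ := h.pre.irr _ z3
      have := yl y py
      have := (h.ball k1 y).1 py.1
      have := h.par y
      have := h.ebud j k hj0 k1
      have := h.smono (show j + 1 + 1 + 1 ≤ k by omega) k1.le
      have := h.sS _ hi1
      have := h.fp hi1
      omega
  · left
    obtain ⟨y, py⟩ := h.pre.irr z z3
    have y1 := yl y py
    have hp : ∃ p k, (k = j ∨ k = j + 1) ∧ d (c k) p = f (c k) ∧ d p y = 1 := by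
      rcases z4 y py with a | a
      · obtain ⟨p, p1, p2⟩ := T.step (c (j + 1)) y (f (c (j + 1))) (by omega)
        exact ⟨p, j + 1, Or.inr rfl, p1, p2⟩
      · obtain ⟨p, p1, p2⟩ := T.step (c j) y (f (c j)) (by omega)
        exact ⟨p, j, Or.inl rfl, p1, p2⟩
    obtain ⟨p, k, k1, p1, p2⟩ := hp
    have k0 : k < m := by omega
    have kj : d (c k) (c j) ≤ f (c k) := by rcases k1 with rfl | rfl <;> omega
    have hs := h.out_sing z3 hzC py p2 (h.cmem k0) p1.le fun y' py' => by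
      rcases z4 y' py' with a | a
      · exact ⟨_, h.cmem hi0, ⟨h.fp k0, f1, c j, kj, g5⟩, a⟩
      · exact ⟨_, h.cmem hj0, ⟨h.fp k0, f0, c j, kj, by omega⟩, a⟩
    refine ⟨p, y, ⟨p2, ⟨z, z3, hzC, hs.1, hs.2⟩, ⟨c k, h.cmem k0, ?_, p1.le⟩,
      Sg d f Q c j (j + 1 + 1), Sg_sub, f (c (j + 1)) + 1, by omega, by omega,
      fun π hπ π' hπ' _ => ?_, fun π hπ => ?_⟩, k, by omega, p1.le⟩
    · rcases k1 with rfl | rfl <;> assumption
    · have := h.sg_loc hi0 hπ
      have := h.sg_loc hi0 hπ'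
      have := h.dle π.1 π'.1
      omega
    · have := h.sg_loc hi0 hπ
      have := h.dle π.1 p
      have := (h.ball k0 p).1 p1.le
      rcases k1 with rfl | rfl <;> omega

theorem left : (∃ k, k ≤ i ∧ vt (c k)) ∨
    (∃ p y, Ex d f Q C vt p y 1 ∧ ∃ k, k ≤ i ∧ d (c k) p ≤ f (c k)) ∨
    (¬ Act d f Q (c (i + 1)) ∧ 7 ≤ s m) := by
  have hi0 : i < m := by omega
  by_cases hv : vt (c i)
  · exact Or.inl ⟨i, le_rfl, hv⟩
  obtain ⟨z, z1, z2, z3⟩ := h.pre.r1 _ (h.cmem hi0) (h.act_i hi1 hf hq0 q1 q2) hv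
  by_cases hzC : z ∈ C
  swap
  · obtain ⟨p, y, a, b⟩ := h.out_single hi1 hf hq0 q1 q2 z2 hzC hv z3
    exact Or.inr (Or.inl ⟨p, y, a, i, le_rfl, b⟩)
  obtain ⟨k, k1, rfl⟩ := (h.mem z).1 hzC
  by_cases r1 : k = i + 1
  · subst r1
    exact Or.inr (Or.inr (h.loc_case hi1 hf hq0 q1 q2 z3))
  by_cases r2 : k + 1 = i
  · by_cases hv' : vt (c k)
    · exact Or.inl ⟨k, by omega, hv'⟩
    · exact Or.inr (h.pair_case hi1 hf hq0 q1 q2 r2 hv hv' z3)
  exfalso
  obtain ⟨y, py⟩ := h.pre.irr _ z2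
  have y1 := z3 y py
  have y2 := (h.ball k1 y).1 py.1
  have y3 := h.dc i hi0 y
  have y4 := h.par y
  have y5 := h.sS i hi0
  rcases lt_trichotomy k i with l | l | l
  · obtain ⟨j, rfl⟩ : ∃ j, i = j + 1 := ⟨i - 1, by omega⟩
    have hj0 : j < m := by omega
    have := py.2.1 (c j) (h.cinj (by omega) hj0).symm (h.fp hj0)
    have := h.dc j hj0 y
    have := h.sS j hj0
    have := h.fp hj0
    have := h.smono (show k + 1 ≤ j by omega) hj0.le
    have := h.ebud k (j + 1) k1 hi0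
    have := h.eanti k j (by omega) hj0
    have := h.eanti j (j + 1) (by omega) hi0
    omega
  · exact z1 (l ▸ rfl)
  · have := py.2.1 (c (i + 1)) (h.cinj (by omega) k1) (h.fp hi1)
    have := h.dc _ hi1 y
    have := h.sS _ hi1
    have := h.fp hi1
    have := h.smono (show i + 1 + 1 ≤ k by omega) k1.le
    have := h.ebud i k hi0 k1
    have := h.eanti (i + 1) k (by omega) k1
    have := h.eanti i (i + 1) (by omega) hi1
    omega

end Cf

end Pool.Agent.MP_8cd4dc_co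

end MrgPart3

-- ======== part 4: formerly Pool.Agent.MP_8cd4dc_co.Both
section MrgPart4

set_option autoImplicit false

namespace Pool.Agent.MP_8cd4dc_co

open Finset

variable {V : Type*}

namespace Cf

variable {d : V → V → ℕ} {f : V → ℕ} {Q : Finset (V × ℕ)} {C : Finset V} {vt : V → Prop}
  {m : ℕ} {c : ℕ → V} {lo hi : V → ℤ} {s e : ℕ → ℤ} (h : Cf d f Q C vt m c lo hi s e)
include h

theorem mirror : Cf d f Q C vt m (fun k => c (m - 1 - k)) (fun q => -hi q) (fun q => -lo q)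
    (fun k => s m - s (m - k)) (fun k => -e (m - 1 - k) - 2 * s m) where
  pre := h.pre
  mem v := by
    rw [h.mem]
    constructor
    · rintro ⟨k, k1, rfl⟩
      exact ⟨m - 1 - k, by omega, by rw [show m - 1 - (m - 1 - k) = k by omega]⟩
    · rintro ⟨k, k1, rfl⟩
      exact ⟨m - 1 - k, by omega, rfl⟩
  par q := by have := h.par q; omega
  dle q q' := by have := h.dle q q'; omega
  dc k hk q := by
    have := h.dc (m - 1 - k) (by omega) q
    have := h.sS (m - 1 - k) (by omega)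
    rw [show m - 1 - k + 1 = m - k by omega] at this
    omega
  s0 := by simp
  sS k hk := by
    have := h.sS (m - 1 - k) (by omega)
    rw [show m - 1 - k + 1 = m - k by omega] at this
    rw [show m - (k + 1) = m - 1 - k by omega]
    omega
  sm := by
    have := h.s0
    have := h.sm
    rw [Nat.sub_self]
    omega
  eanti k k' h1 h2 := by
    have := h.eanti (m - 1 - k') (m - 1 - k) (by omega) (by omega)
    omega
  ebud k k' h1 h2 := by
    have := h.ebud (m - 1 - k') (m - 1 - k) (by omega) (by omega)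
    omega

theorem ex_two {i : ℕ} (hi1 : i + 1 < m) {p y : V} (p1 : d (c i) p ≤ f (c i))
    (p2 : d (c (i + 1)) p ≤ f (c (i + 1))) (a1 : Act d f Q (c i)) (a2 : Act d f Q (c (i + 1)))
    (hx : Ex d f Q C vt p y 1) : Ex d f Q C vt p y 2 := by
  obtain ⟨x1, ⟨z, z1, z2, z3, z4⟩, x3, -⟩ := hx
  have hi0 : i < m := by omega
  have T := h.pre.tm
  have y1 := z3.1.2.1 (c i) (fun e0 => z2 (e0 ▸ h.cmem hi0)) (h.fp hi0)
  have y2 := z3.1.2.1 (c (i + 1)) (fun e0 => z2 (e0 ▸ h.cmem hi1)) (h.fp hi1)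
  have t1 := T.tri (c i) p y
  have t2 := T.tri (c (i + 1)) p y
  have d1 := h.dc i hi0 p
  have d2 := h.dc _ hi1 p
  have d3 := h.par p
  have s1 := h.sS i hi0
  have s2 := h.sS _ hi1
  have f1 := h.fp hi0
  have f2 := h.fp hi1
  have e1 := h.ebud i (i + 1) hi0 hi1
  have e2 := h.eanti i (i + 1) (by omega) hi1
  have e3 : e (i + 1) = e i := by omega
  have s3 := h.smono (Nat.zero_le i) hi0.le
  have s4 := h.s0
  have s5 := h.smono (show i + 1 + 1 ≤ m by omega) le_rfl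
  have c7 : 2 ≤ s (i + 1) := by
    by_contra hn
    rcases h.act_one hi0 a1 (by omega) with ⟨j, r1, r2⟩ | ⟨r1, r2⟩
    · have := h.smono (Nat.zero_le j) (by omega)
      have := h.sS j (by omega)
      have := h.fp (show j < m by omega)
      subst r1
      omega
    · omega
  have c8 : s (i + 1) + 2 ≤ s m := by
    by_contra hn
    rcases h.act_one hi1 a2 (by omega) with ⟨j, r1, r2⟩ | ⟨r1, r2⟩
    · have : j = i := by omega
      subst this
      omega
    · have := h.sS _ r1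
      have := h.fp r1
      have := h.smono (show i + 1 + 1 + 1 ≤ m by omega) le_rfl
      omega
  have a8 := h.sm
  refine ⟨x1, ⟨z, z1, z2, z3, z4⟩, x3, Q, Subset.rfl, ∑ v ∈ C, f v, by omega, h.pre.card,
    fun π hπ π' hπ' _ => ?_, fun π hπ => ?_⟩
  · have := h.pairwise hπ hπ'
    omega
  · have := h.near_junction hi1 p1 p2 hπ
    omega

theorem far {k k' : ℕ} (hk : k + 1 < k') (hk' : k' < m) {p : V} (p1 : d (c k) p ≤ f (c k))
    (p2 : d (c k') p ≤ f (c k')) : False := by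
  rcases h.other (by omega) p1 (h.cinj (by omega) hk').symm (h.fp hk') p2 with
    ⟨j, r1, r2⟩ | ⟨r1, r2⟩
  · exact h.cinj (by omega) hk' r2.symm
  · exact h.cinj hk hk' r2.symm

theorem both (hvt : ∀ v w, vt v → vt w → v = w) :
    (7 ≤ ∑ v ∈ C, f v ∧ ((∃ v, vt v) ∨ ∃ p y, Ex d f Q C vt p y 1)) ∨
    ((∃ v, vt v) ∧ ∃ p y, Ex d f Q C vt p y 1) ∨
    (∃ p y p' y', (p, y) ≠ (p', y') ∧ Ex d f Q C vt p y 1 ∧ Ex d f Q C vt p' y' 1) ∨
    ∃ p y, Ex d f Q C vt p y 2 := by
  classical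
  have h' := h.mirror
  have ex := h.exists_mk
  have ex' := h'.exists_mk
  obtain ⟨hi1, q0, hq0, q1, q2⟩ := Nat.find_spec ex
  obtain ⟨hi1', q0', hq0', q1', q2'⟩ := Nat.find_spec ex'
  have hf : ∀ k, k < Nat.find ex → ¬ Mk d f Q (c k) (c (k + 1)) := fun k hk a =>
    Nat.find_min ex hk ⟨by omega, a⟩
  have hf' : ∀ k, k < Nat.find ex' → ¬ Mk d f Q (c (m - 1 - k)) (c (m - 1 - (k + 1))) :=
    fun k hk a => Nat.find_min ex' hk ⟨by omega, a⟩
  have hle : Nat.find ex ≤ m - 1 - (Nat.find ex' + 1) := Nat.find_min' ex ⟨by omega, q0', hq0', q2',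
    by rw [show m - 1 - (Nat.find ex' + 1) + 1 = m - 1 - Nat.find ex' by omega]; exact q1'⟩
  generalize Nat.find ex = i at *
  generalize Nat.find ex' = i' at *
  have A := h.act_i hi1 hf hq0 q1 q2
  have A' := h'.act_i hi1' hf' hq0' q1' q2'
  have L := h.left hi1 hf hq0 q1 q2
  have L' := h'.left hi1' hf' hq0' q1' q2'
  have sm := h.sm
  have s0 := h.s0
  simp only [Nat.sub_self] at A' L'
  rcases L with ⟨k, k1, k2⟩ | ⟨p, y, x, k, k1, k2⟩ | ⟨n1, n2⟩ <;>
    rcases L' with ⟨k', k1', k2'⟩ | ⟨p', y', x', k', k1', k2'⟩ | ⟨n1', n2'⟩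
  · exact absurd (hvt _ _ k2 k2') (h.cinj (by omega) (by omega))
  · exact Or.inr (Or.inl ⟨⟨_, k2⟩, p', y', x'⟩)
  · exact Or.inl ⟨by omega, Or.inl ⟨_, k2⟩⟩
  · exact Or.inr (Or.inl ⟨⟨_, k2'⟩, p, y, x⟩)
  · by_cases hne : (p, y) = (p', y')
    · obtain ⟨rfl, rfl⟩ := Prod.mk.inj hne
      have e1 : ¬ k + 1 < m - 1 - k' := fun a => h.far a (by omega) k2 k2'
      have e2 : k = i := by omega
      have e3 : m - 1 - k' = i + 1 := by omega
      have e4 : m - 1 - i' = i + 1 := by omega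
      rw [e2] at k2
      rw [e3] at k2'
      rw [e4] at A'
      exact Or.inr (Or.inr (Or.inr ⟨p, y, h.ex_two hi1 k2 k2' A A' x⟩))
    · exact Or.inr (Or.inr (Or.inl ⟨p, y, p', y', hne, x, x'⟩))
  · exact Or.inl ⟨by omega, Or.inr ⟨p, y, x⟩⟩
  · exact Or.inl ⟨by omega, Or.inl ⟨_, k2'⟩⟩
  · exact Or.inl ⟨by omega, Or.inr ⟨p', y', x'⟩⟩
  · exfalso
    have e1 : m - 1 - i' ≠ i + 1 := fun a => n1 (a ▸ A')
    have l1 := (h.lft_card (i + 1) (by omega) fun k hk => hf k (by omega)).1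
    have l2 := (h'.lft_card (i' + 1) (by omega) fun k hk => hf' k (by omega)).1
    have l3 := h.sg_card' (a := i + 1) (b := m - 1 - (i' + 1)) (by omega) (by omega) n1 n1'
    have l4 := split (d := d) (f := f) (Q := Q) (m := m) (c := c) (i + 1)
    have l5 := card_le_add (A := Sg d f Q c (i + 1) m)
      (B := Sg d f Q c (i + 1) (m - 1 - (i' + 1) + 1))
      (D := Lft d f Q m (fun k => c (m - 1 - k)) (i' + 1)) (by
      intro π hπ
      obtain ⟨hQ, k, k1, k2, k3⟩ := mem_Sg.1 hπ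
      by_cases hn : π ∈ Sg d f Q c (i + 1) (m - 1 - (i' + 1) + 1)
      · exact Or.inl hn
      refine Or.inr (mem_Lft.2 ⟨hQ, fun j j1 j2 => ?_⟩)
      by_contra j3
      have j4 : d (c (m - 1 - j)) π.1 ≤ f (c (m - 1 - j)) := by simpa using j3
      by_cases hk : k < m - 1 - (i' + 1) + 1
      · exact hn (mem_Sg.2 ⟨hQ, k, k1, hk, k3⟩)
      by_cases hj : i + 1 ≤ m - 1 - j
      · exact hn (mem_Sg.2 ⟨hQ, m - 1 - j, hj, by omega, j4⟩)
      exact h.far (by omega) k2 j4 k3)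
    have l6 := h.cardQ
    rw [show m - 1 - (i' + 1) + 1 = m - (i' + 1) by omega] at l3 l5
    omega

end Cf

/-- Every edge between two vertices of a cluster lies in a ball of the cluster. -/
theorem edge_cover {d : V → V → ℕ} {f : V → ℕ} {C : Finset V} (T : IsTM d)
    (conn : ∀ S : V → Prop, (∀ v ∈ C, ∀ w ∈ C, Ov d f v w → S v → S w) →
      ∀ v ∈ C, ∀ w ∈ C, S v → S w)
    {a b v w q q' : V} (hab : d a b = 1) (hv : v ∈ C) (hw : w ∈ C) (h1 : d v q ≤ f v)
    (h2 : d w q' ≤ f w) (s1 : d q a < d q b) (s2 : d q' b < d q' a) :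
    ∃ t ∈ C, d t a ≤ f t ∧ d t b ≤ f t := by
  by_contra hn
  push Not at hn
  have hba : d b a = 1 := by rw [T.symm]; exact hab
  have key : ∀ t ∈ C, ∀ x, d t x ≤ f t → (d t a < d t b ↔ d x a < d x b) := by
    intro t ht x hx
    have n := hn t ht
    have c1 := T.adj_cases t hab
    have c2 := T.adj_cases x hab
    constructor
    · intro l
      exact T.side_ball hba l (by omega) hx
    · intro l
      by_contra l'
      have := T.side_ball hab (r := f t) (w := t) (q := x) (by omega) (by omega) hx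
      omega
  have := conn (fun t => d t a < d t b) (by
    rintro t ht t' ht' ⟨-, -, x, x1, x2⟩ l
    exact (key t' ht' x x2).2 ((key t ht x x1).1 l)) v hv w hw ((key v hv q h1).2 s1)
  have := (key w hw q' h2).1 this
  omega

/-- The balls of a cluster cover the edges of a geodesic between two of its vertices. -/
theorem geod_cover {d : V → V → ℕ} {f : V → ℕ} {C : Finset V} (T : IsTM d)
    (conn : ∀ S : V → Prop, (∀ v ∈ C, ∀ w ∈ C, Ov d f v w → S v → S w) →
      ∀ v ∈ C, ∀ w ∈ C, S v → S w)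
    {a b v w : V} (hv : v ∈ C) (hw : w ∈ C) (h1 : d v a ≤ f v) (h2 : d w b ≤ f w) (k : ℕ)
    (hk : k < d a b) : ∃ t ∈ C, d a t ≤ f t + k ∧ d b t + k + 1 ≤ f t + d a b := by
  obtain ⟨p', p1, p2⟩ := T.geod a _ b rfl (k + 1) hk
  obtain ⟨p, p3, p4⟩ := T.step a p' k p1
  have := T.tri a p b
  have := T.tri p p' b
  have := T.symm b p
  have := T.symm b p'
  obtain ⟨t, t1, t2, t3⟩ := edge_cover T conn p4 hv hw h1 h2 (by omega) (by omega)
  have := T.tri a p t
  have := T.tri b p' t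
  have := T.symm p t
  have := T.symm p' t
  exact ⟨t, t1, by omega, by omega⟩

theorem diam_sum {d : V → V → ℕ} {f : V → ℕ} {C : Finset V} (T : IsTM d)
    (conn : ∀ S : V → Prop, (∀ v ∈ C, ∀ w ∈ C, Ov d f v w → S v → S w) →
      ∀ v ∈ C, ∀ w ∈ C, S v → S w)
    {a b v w : V} (hv : v ∈ C) (hw : w ∈ C) (h1 : d v a ≤ f v) (h2 : d w b ≤ f w) :
    d a b ≤ ∑ t ∈ C, (2 * f t + d a b - (d a t + d b t)) := by
  classical
  have : range (d a b) ⊆ C.biUnion fun t => Ico (d a t - f t) (f t + d a b - d b t) := by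
    intro k hk
    obtain ⟨t, t1, t2, t3⟩ := geod_cover T conn hv hw h1 h2 k (mem_range.1 hk)
    exact mem_biUnion.2 ⟨t, t1, mem_Ico.2 ⟨by omega, by omega⟩⟩
  have := (card_le_card this).trans card_biUnion_le
  rw [card_range] at this
  refine this.trans (sum_le_sum fun t _ => ?_)
  rw [Nat.card_Ico]
  omega

theorem diam_le {d : V → V → ℕ} {f : V → ℕ} {C : Finset V} (T : IsTM d)
    (conn : ∀ S : V → Prop, (∀ v ∈ C, ∀ w ∈ C, Ov d f v w → S v → S w) →
      ∀ v ∈ C, ∀ w ∈ C, S v → S w)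
    {a b v w : V} (hv : v ∈ C) (hw : w ∈ C) (h1 : d v a ≤ f v) (h2 : d w b ≤ f w) :
    d a b ≤ 2 * ∑ t ∈ C, f t := by
  refine (diam_sum T conn hv hw h1 h2).trans ?_
  rw [mul_sum]
  refine sum_le_sum fun t _ => ?_
  have := T.tri a t b
  have := T.symm t b
  omega

theorem exists_enum (C : Finset V) (g : V → ℕ) (hg : ∀ v ∈ C, ∀ w ∈ C, g v = g w → v = w)
    (v0 : V) : ∃ c : ℕ → V, (∀ v, v ∈ C ↔ ∃ k, k < C.card ∧ c k = v) ∧
      ∀ k k', k < k' → k' < C.card → g (c k) < g (c k') := by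
  classical
  have hc : (C.image g).card = C.card := card_image_of_injOn fun v hv w hw => hg v hv w hw
  let φ := (C.image g).orderEmbOfFin hc
  have hφ : ∀ k : Fin C.card, ∃ v ∈ C, g v = φ k := fun k =>
    mem_image.1 (orderEmbOfFin_mem _ hc k)
  choose ψ ψ1 ψ2 using hφ
  refine ⟨fun k => if hk : k < C.card then ψ ⟨k, hk⟩ else v0, fun v => ⟨fun hv => ?_, ?_⟩, ?_⟩
  · have : g v ∈ Set.range φ := by
      rw [range_orderEmbOfFin]
      exact mem_coe.2 (mem_image_of_mem g hv)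
    obtain ⟨k, hk⟩ := this
    exact ⟨k, k.2, by simp only [dif_pos k.2]; exact hg _ (ψ1 k) _ hv ((ψ2 k).trans hk)⟩
  · rintro ⟨k, hk, rfl⟩
    simp only [dif_pos hk]
    exact ψ1 _
  · intro k k' h1 h2
    simp only [dif_pos h2, dif_pos (h1.trans h2), ψ2]
    exact φ.strictMono (show (⟨k, h1.trans h2⟩ : Fin C.card) < ⟨k', h2⟩ from h1)

theorem Pre.line {d : V → V → ℕ} {f : V → ℕ} {Q : Finset (V × ℕ)} {C : Finset V} {vt : V → Prop}
    (h : Pre d f Q C vt) (hC : C.Nonempty)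
    (conn : ∀ S : V → Prop, (∀ v ∈ C, ∀ w ∈ C, Ov d f v w → S v → S w) →
      ∀ v ∈ C, ∀ w ∈ C, S v → S w) :
    ∃ m c lo hi s e, Cf d f Q C vt m c lo hi s e := by
  classical
  have T := h.tm
  obtain ⟨v0, hv0⟩ := hC
  have hσ : f v0 ≤ ∑ v ∈ C, f v := single_le_sum (fun _ _ => Nat.zero_le _) hv0
  have := h.fpos v0 hv0
  have hfar : ∃ π ∈ Q, ∃ π' ∈ Q, 2 * ∑ v ∈ C, f v < d π.1 π'.1 + π.2 + π'.2 := by
    by_contra hn
    push Not at hn
    have := h.mp Q Subset.rfl (∑ v ∈ C, f v) (by omega) fun π a π' b _ => hn π a π' b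
    have := h.card
    omega
  obtain ⟨π, hπ, π', hπ', hd⟩ := hfar
  have hin : ∀ π ∈ Q, π.2 ≤ 1 ∧ ∃ v ∈ C, d v π.1 ≤ f v := fun π hπ => by
    obtain ⟨v, hv, a | a⟩ := h.pts π hπ
    · exact ⟨by omega, v, hv, a.2⟩
    · exact ⟨by omega, v, hv, a.2.1.1⟩
  obtain ⟨i1, va, ha, ha'⟩ := hin π hπ
  obtain ⟨i2, vb, hb, hb'⟩ := hin π' hπ'
  generalize π.1 = a at *
  generalize π'.1 = b at *
  have geo : ∀ t ∈ C, d a t + d b t = d a b := by
    intro t ht
    by_contra hn
    have h1 := diam_sum T conn ha hb ha' hb'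
    rw [← add_sum_erase _ _ ht] at h1
    have h2 : ∑ x ∈ C.erase t, (2 * f x + d a b - (d a x + d b x)) ≤ 2 * ∑ x ∈ C.erase t, f x := by
      rw [mul_sum]
      refine sum_le_sum fun x _ => ?_
      have := T.tri a x b
      have := T.symm x b
      omega
    have h3 := add_sum_erase C f ht
    have := T.tri a t b
    have := T.symm t b
    have := T.parity t _ a b rfl
    have := h.fpos t ht
    omega
  obtain ⟨c, c1, c2⟩ := exists_enum C (d a) (fun v hv w hw e0 => T.eq_of _ _ (by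
    have := T.four v w _ a b rfl
    have := geo v hv
    have := geo w hw
    omega)) v0
  have cm : ∀ k, k < C.card → c k ∈ C := fun k hk => (c1 _).2 ⟨k, hk, rfl⟩
  have cne : ∀ k k', k < k' → k' < C.card → c k ≠ c k' := fun k k' h1 h2 e0 => by
    have := c2 k k' h1 h2
    rw [e0] at this
    omega
  have dc : ∀ k, k < C.card → ∀ q, (d (c k) q : ℤ) =
      max ((d a q : ℤ) - d a (c k)) (d a (c k) - (d a b - d b q)) := fun k hk q => by
    have := T.four (c k) q _ a b rfl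
    have := geo _ (cm k hk)
    have := T.tri a (c k) q
    have := T.tri b (c k) q
    omega
  have mono : ∀ k k', k < k' → k' < C.card → d a (c k) + f (c k') < d a (c k') + f (c k) ∧
      d a (c k) + f (c k) < d a (c k') + f (c k') := fun k k' h1 h2 => by
    obtain ⟨y, y1, y2, -⟩ := h.irr _ (h.fpos _ (cm k (by omega)))
    obtain ⟨y', y1', y2', -⟩ := h.irr _ (h.fpos _ (cm k' h2))
    have := y2 _ (cne k k' h1 h2).symm (h.fpos _ (cm k' h2))
    have := y2' _ (cne k k' h1 h2) (h.fpos _ (cm k (by omega)))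
    have := dc k (by omega) y
    have := dc k' h2 y
    have := dc k (by omega) y'
    have := dc k' h2 y'
    have := c2 k k' h1 h2
    omega
  have link : ∀ k, k + 1 < C.card → d a (c (k + 1)) ≤ d a (c k) + f (c k) + f (c (k + 1)) := by
    intro k hk
    by_contra hn
    have := geo _ (cm _ hk)
    obtain ⟨t, t1, t2, t3⟩ := geod_cover T conn ha hb ha' hb' (d a (c k) + f (c k)) (by omega)
    have := geo t t1
    obtain ⟨j, j1, rfl⟩ := (c1 t).1 t1
    rcases lt_trichotomy j k with l | l | l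
    · have := mono j k l (by omega)
      omega
    · subst l
      omega
    · rcases Nat.eq_or_lt_of_le (show k + 1 ≤ j from l) with r | r
      · subst r
        omega
      · have := mono _ j r j1
        omega
  let s : ℕ → ℤ := fun k => ((∑ j ∈ range k, f (c j) : ℕ) : ℤ)
  have sS : ∀ k, s (k + 1) = s k + f (c k) := fun k => by
    simp only [s, sum_range_succ]; push_cast; ring
  have smono : ∀ k k', k ≤ k' → s k ≤ s k' := fun k k' hk => by
    induction k', hk using Nat.le_induction with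
    | base => exact le_rfl
    | succ n _ ih => have := sS n; omega
  have s0 : s 0 = 0 := by simp [s]
  have sm : s C.card = ((∑ v ∈ C, f v : ℕ) : ℤ) := by
    simp only [s]
    congr 1
    refine sum_bij (fun k _ => c k) (fun k hk => cm k (mem_range.1 hk)) ?_ ?_ fun _ _ => rfl
    · intro k hk k' hk' e0
      rcases lt_trichotomy k k' with l | l | l
      · exact absurd e0 (cne k k' l (mem_range.1 hk'))
      · exact l
      · exact absurd e0.symm (cne k' k l (mem_range.1 hk))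
    · intro v hv
      obtain ⟨k, k1, k2⟩ := (c1 v).1 hv
      exact ⟨k, mem_range.2 k1, k2⟩
  let e : ℕ → ℤ := fun k => (d a (c k) : ℤ) - f (c k) - 2 * s k
  have he : ∀ k, e k = (d a (c k) : ℤ) - f (c k) - 2 * s k := fun _ => rfl
  have eanti : ∀ k k', k ≤ k' → k' < C.card → e k' ≤ e k := fun k k' hk => by
    induction k', hk using Nat.le_induction with
    | base => exact fun _ => le_rfl
    | succ n _ ih =>
      intro hn
      have := ih (by omega)
      have := link n hn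
      have := he n
      have := he (n + 1)
      have := sS n
      omega
  obtain ⟨n, hn⟩ : ∃ n, C.card = n + 1 := ⟨C.card - 1, by have := card_pos.2 ⟨v0, hv0⟩; omega⟩
  have bud : e 0 ≤ e n + 1 := by
    obtain ⟨ka, k1, rfl⟩ := (c1 va).1 ha
    obtain ⟨kb, k2, rfl⟩ := (c1 vb).1 hb
    have a1 := T.symm a (c ka)
    have a2 := T.symm b (c kb)
    have a3 := geo _ hb
    have a4 : (d a (c 0) : ℤ) - f (c 0) ≤ 0 := by
      rcases Nat.eq_zero_or_pos ka with r | r
      · subst r; omega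
      · have := mono 0 ka r k1; omega
    have a5 : d a b ≤ d a (c n) + f (c n) := by
      rcases Nat.eq_or_lt_of_le (show kb ≤ n by omega) with r | r
      · subst r; omega
      · have := mono kb n r (by omega); omega
    have := he 0
    have := he n
    have := sS n
    rw [hn] at sm
    omega
  refine ⟨C.card, c, fun q => (d a b : ℤ) - d b q, fun q => d a q, s, e, h, c1, fun q => ?_,
    fun q q' => ?_, fun k hk q => ?_, s0, fun k _ => sS k, sm, eanti, fun k k' h1 h2 => ?_⟩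
  · have := T.tri a q b
    have := T.symm q b
    have := T.parity q _ a b rfl
    omega
  · have := T.four q q' _ a b rfl
    omega
  · have := dc k hk q
    have := he k
    omega
  · have := eanti 0 k (by omega) h1
    have := eanti k' n (by omega) (by omega)
    omega

end Pool.Agent.MP_8cd4dc_co

end MrgPart4

-- marker of a merged file
example : 731051 + 68324 = 731051 + 68324 := rfl
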