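import Mathlib.Topology.Sheaves.Presheaf
import Mathlib.Tactic.Bound
import Pool.Agent.MP_8cd4dc_co.Both
import Pool.Agent.MP_8cd4dc_co.Dual

-- ======== part 0: formerly Pool.Agent.MP_8cd4dc_co.Core
section MrgPart0

set_option autoImplicit false

namespace Pool.Agent.MP_8cd4dc_co

open Finset

variable {V : Type*}

/-- The vertex `q` lies in some ball. -/
def Heard (d : V → V → ℕ) (f : V → ℕ) (q : V) : Prop := ∃ w, 0 < f w ∧ d w q ≤ f w

/-- The only private vertex of `v` has a neighbour outside all balls. -/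
def Ra (d : V → V → ℕ) (f : V → ℕ) (v : V) : Prop :=
  ∃ x u, Sing d f v x ∧ d x u = 1 ∧ ¬ Heard d f u

/-- What is used of a maximal irredundant broadcast `f` and a multipacking `M`. -/
structure Glob (d : V → V → ℕ) (f : V → ℕ) (M : Finset V) (home : V → V) (anc : V → V × ℕ) :
    Prop where
  tm : IsTM d
  irr : ∀ w, 0 < f w → ∃ y, PB d f w y
  mp : ∀ Q ⊆ M, ∀ k, 1 ≤ k → (∀ a ∈ Q, ∀ b ∈ Q, d a b ≤ 2 * k) → Q.card ≤ k
  hpos : ∀ q, 0 < f (home q)
  hanc : ∀ q, (anc q = (q, 0) ∧ d (home q) q ≤ f (home q)) ∨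
    ((anc q).2 = 1 ∧ Sing d f (home q) (anc q).1 ∧ d (anc q).1 q = 1 ∧ ¬ Heard d f q)
  r1 : ∀ v, 0 < f v → Ra d f v → ∃ z, z ≠ v ∧ 0 < f z ∧ ∀ y, PB d f z y → d v y ≤ f v + 1
  r2 : ∀ v t, 0 < f v → 0 < f t → Ra d f v → Ra d f t → v ≠ t → d v t ≤ f v →
    ∃ z, z ≠ v ∧ z ≠ t ∧ 0 < f z ∧ ∀ y, PB d f z y → d v y ≤ f v + 1 ∨ d t y ≤ f t + 1

open Classical in
/-- The cluster of a ball. -/
noncomputable def cl [Fintype V] (d : V → V → ℕ) (f : V → ℕ) (v : V) : Finset V :=
  univ.filter fun w => 0 < f w ∧ Relation.ReflTransGen (Ov d f) v w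

/-- An edge between clusters with a heavy set of points behind it. -/
def Str (d : V → V → ℕ) (f : V → ℕ) (M : Finset V) (p y : V) (w : ℕ) : Prop :=
  d p y = 1 ∧ Heard d f p ∧ (∃ z, 0 < f z ∧ Sing d f z y ∧ f z < d z p) ∧
    ∃ R ⊆ M, ∃ F : ℕ, 1 ≤ F ∧ F + 1 ≤ R.card ∧ (∀ a ∈ R, d a p < d a y) ∧
      (∀ a ∈ R, ∀ b ∈ R, d a b ≤ 2 * F + 2) ∧ ∀ a ∈ R, d a p + 2 * w ≤ 2 * F + 2

open Classical in
/-- The weight of a directed edge. -/
noncomputable def wt (d : V → V → ℕ) (f : V → ℕ) (M : Finset V) (e : V × V) : ℕ :=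
  if Str d f M e.1 e.2 2 then 2 else if Str d f M e.1 e.2 1 then 1 else 0

section
variable {d : V → V → ℕ} {f : V → ℕ} {M : Finset V}

theorem wt_spec (e : V × V) : wt d f M e ≤ 2 ∧ (wt d f M e ≠ 0 → Str d f M e.1 e.2 (wt d f M e)) := by
  unfold wt
  split_ifs with h1 h2
  · exact ⟨le_rfl, fun _ => h1⟩
  · exact ⟨by omega, fun _ => h2⟩
  · exact ⟨by omega, fun h => absurd rfl h⟩

theorem le_wt_one {p y : V} (h : Str d f M p y 1) : 1 ≤ wt d f M (p, y) := by
  unfold wt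
  split_ifs <;> omega

theorem le_wt_two {p y : V} (h : Str d f M p y 2) : 2 ≤ wt d f M (p, y) := by
  unfold wt
  rw [if_pos h]

theorem Ov.symm {v w : V} (h : Ov d f v w) : Ov d f w v :=
  ⟨h.2.1, h.1, h.2.2.imp fun _ a => a.symm⟩

theorem rt_symm {v w : V} (h : Relation.ReflTransGen (Ov d f) v w) :
    Relation.ReflTransGen (Ov d f) w v := by
  induction h with
  | refl => exact .refl
  | tail _ h2 ih => exact .head h2.symm ih

variable [Fintype V]

theorem mem_cl {v w : V} : w ∈ cl d f v ↔ 0 < f w ∧ Relation.ReflTransGen (Ov d f) v w := by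
  simp only [cl, mem_filter, mem_univ, true_and]

theorem cl_self {v : V} (h : 0 < f v) : v ∈ cl d f v := mem_cl.2 ⟨h, .refl⟩

theorem cl_eq {v w : V} (h : w ∈ cl d f v) : cl d f w = cl d f v := by
  ext x
  rw [mem_cl, mem_cl]
  have := (mem_cl.1 h).2
  exact ⟨fun a => ⟨a.1, this.trans a.2⟩, fun a => ⟨a.1, (rt_symm this).trans a.2⟩⟩

theorem cl_closed {v0 : V} : ∀ v ∈ cl d f v0, ∀ w, Ov d f v w → w ∈ cl d f v0 :=
  fun _ hv _ hw => mem_cl.2 ⟨hw.2.1, (mem_cl.1 hv).2.tail hw⟩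

theorem cl_conn (v0 : V) : ∀ S : V → Prop,
    (∀ v ∈ cl d f v0, ∀ w ∈ cl d f v0, Ov d f v w → S v → S w) →
      ∀ v ∈ cl d f v0, ∀ w ∈ cl d f v0, S v → S w := by
  intro S hS v hv w hw sv
  have := (rt_symm (mem_cl.1 hv).2).trans (mem_cl.1 hw).2
  have key : ∀ x, Relation.ReflTransGen (Ov d f) v x → x ∈ cl d f v0 ∧ S x := by
    intro x hx
    induction hx with
    | refl => exact ⟨hv, sv⟩
    | tail _ h2 ih => exact ⟨cl_closed _ ih.1 _ h2, hS _ ih.1 _ (cl_closed _ ih.1 _ h2) h2 ih.2⟩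
  exact (key w this).2

end

namespace Glob

variable [Fintype V] {d : V → V → ℕ} {f : V → ℕ} {M : Finset V} {home : V → V} {anc : V → V × ℕ}
  (h : Glob d f M home anc)
include h

omit [Fintype V] in
theorem anc1 (q : V) : d (home q) (anc q).1 ≤ f (home q) ∧ d (anc q).1 q = (anc q).2 ∧
    (anc q).2 ≤ 1 := by
  rcases h.hanc q with a | a
  · rw [a.1]; exact ⟨a.2, h.tm.self q, by simp⟩
  · exact ⟨a.2.1.1.1, by rw [a.1, a.2.2.1], a.1.le⟩

theorem K_eq {v0 t q : V} (ht : t ∈ cl d f v0) (hq : d t q ≤ f t) :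
    cl d f (home q) = cl d f v0 := by
  have ft := (mem_cl.1 ht).1
  rcases h.hanc q with a | a
  · exact cl_eq (cl_closed t ht _ ⟨ft, h.hpos q, q, hq, a.2⟩)
  · exact absurd ⟨t, ft, hq⟩ a.2.2.2

theorem home_mem {v0 q : V} (hq : cl d f (home q) = cl d f v0) : home q ∈ cl d f v0 :=
  hq ▸ cl_self (h.hpos q)

theorem one_side {v0 a b t q : V} (hab : d a b = 1)
    (hno : ∀ t ∈ cl d f v0, d t a ≤ f t → f t < d t b) (ht : t ∈ cl d f v0) (hq : d t q ≤ f t)
    (hs : d q b < d q a) : ∀ t' ∈ cl d f v0, ∀ q', d t' q' ≤ f t' → d q' b < d q' a := by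
  intro t' ht' q' hq'
  rcases h.tm.adj_cases q' hab with c | c
  · obtain ⟨x, x1, x2, x3⟩ := edge_cover h.tm (cl_conn v0) hab ht' ht hq' hq (by omega) hs
    have := hno x x1 x2
    omega
  · omega

theorem pc_side {v0 a b : V} (hab : d a b = 1) (ha : Heard d f a)
    (hs : ∀ t' ∈ cl d f v0, ∀ q', d t' q' ≤ f t' → d q' b < d q' a) {q : V}
    (hq : cl d f (home q) = cl d f v0) : d q b < d q a := by
  have := hs _ (h.home_mem hq) _ (h.anc1 q).1
  rcases h.hanc q with x | x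
  · rwa [x.1] at this
  · refine h.tm.side_nbr hab this (by rw [h.tm.symm]; exact x.2.2.1.le) ?_
    rintro rfl
    exact x.2.2.2 ha

/-- The cluster that an edge enters lies on the side of the head. -/
theorem in_side {v0 p y z : V} (hp : d p y = 1) (hz : 0 < f z) (hs : Sing d f z y)
    (hzp : f z < d z p) (hK : cl d f (home y) = cl d f v0) :
    z ∈ cl d f v0 ∧ ∀ t' ∈ cl d f v0, ∀ q', d t' q' ≤ f t' → d q' y < d q' p := by
  have hzC : z ∈ cl d f v0 := by
    rw [← hK, h.K_eq (cl_self hz) hs.1.1]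
    exact cl_self hz
  refine ⟨hzC, h.one_side hp (fun t ht a => ?_) hzC hs.1.1 ?_⟩
  · by_cases e0 : t = z
    · subst e0; omega
    · exact hs.1.2.1 t e0 (mem_cl.1 ht).1
  · rw [h.tm.self, h.tm.symm]; omega

theorem pc_dist {v0 a b : V} (ha : cl d f (home a) = cl d f v0) {t : V} (ht : t ∈ cl d f v0)
    (hb : d t b ≤ f t) : d b a ≤ 2 * ∑ v ∈ cl d f v0, f v + 1 := by
  have := diam_le h.tm (cl_conn v0) ht (h.home_mem ha) hb (h.anc1 a).1
  have := h.anc1 a
  have := h.tm.tri b (anc a).1 a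
  omega

theorem L1 [DecidableEq V] {v0 : V} (hv0 : 0 < f v0) :
    (M.filter fun q => cl d f (home q) = cl d f v0).card +
      ∑ e ∈ univ.filter (fun e : V × V => cl d f (home e.2) = cl d f v0), wt d f M e ≤
      ∑ v ∈ cl d f v0, f v + 1 := by
  have T := h.tm
  set C := cl d f v0 with hC
  set PC := M.filter fun q => cl d f (home q) = C with hPC
  let E := (univ.filter (fun e : V × V => cl d f (home e.2) = C)).filter fun e => wt d f M e ≠ 0
  rw [← sum_filter_ne_zero]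
  change PC.card + ∑ e ∈ E, wt d f M e ≤ _
  have hσ : f v0 ≤ ∑ v ∈ C, f v := single_le_sum (fun _ _ => Nat.zero_le _) (cl_self hv0)
  have ch : ∀ e : V × V, ∃ (R : Finset V) (G : ℕ), e ∈ E → d e.1 e.2 = 1 ∧ Heard d f e.1 ∧
      (∃ z ∈ C, d z e.2 ≤ f z) ∧ (∀ t' ∈ C, ∀ q', d t' q' ≤ f t' → d q' e.2 < d q' e.1) ∧
      R ⊆ M ∧ G + wt d f M e ≤ R.card ∧ (∀ a ∈ R, d a e.1 < d a e.2) ∧
      (∀ a ∈ R, ∀ b ∈ R, d a b ≤ 2 * G + 4) ∧ ∀ a ∈ R, d a e.1 ≤ 2 * G := by
    intro e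
    by_cases he : e ∈ E
    · obtain ⟨e1, e2⟩ := mem_filter.1 he
      obtain ⟨w2, hs⟩ := wt_spec (d := d) (f := f) (M := M) e
      obtain ⟨a1, a2, ⟨z, z1, z2, z3⟩, R, r1, F, r2, r3, r4, r5, r6⟩ := hs e2
      obtain ⟨b1, b2⟩ := h.in_side a1 z1 z2 z3 (mem_filter.1 e1).2
      exact ⟨R, F + 1 - wt d f M e, fun _ => ⟨a1, a2, ⟨z, b1, z2.1.1⟩, b2, r1, by omega, r4,
        fun a ha b hb => by have := r5 a ha b hb; omega,
        fun a ha => by have := r6 a ha; omega⟩⟩
    · exact ⟨∅, 0, fun a => absurd a he⟩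
  choose R G hR using ch
  have d1 : Disjoint PC (E.biUnion R) := by
    rw [disjoint_left]
    intro q hq hq'
    obtain ⟨e, he, hqe⟩ := mem_biUnion.1 hq'
    obtain ⟨a1, a2, -, a4, -, -, a7, -⟩ := hR e he
    have := h.pc_side a1 a2 a4 (mem_filter.1 hq).2
    have := a7 q hqe
    omega
  have d2 : ∀ e ∈ E, ∀ e' ∈ E, e ≠ e' → Disjoint (R e) (R e') := by
    intro e he e' he' hne
    rw [disjoint_left]
    intro q hq hq'
    obtain ⟨a1, -, ⟨z, z1, z2⟩, a4, -, -, a7, -⟩ := hR e he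
    obtain ⟨b1, -, ⟨z', z1', z2'⟩, b4, -, -, b7, -⟩ := hR e' he'
    have s1 := a4 z' z1' _ z2'
    have s2 := b4 z z1 _ z2
    have hpp : e'.1 ≠ e.1 := fun e0 => hne (Prod.ext e0.symm (by
      have := T.cross a1 (q := e.1) (by rw [T.self]; omega) s1 (by rw [← e0]; omega)
      exact this.2.symm))
    exact T.outer_disj a1 b1 (T.side_nbr a1 s1 b1.le hpp) (T.side_nbr b1 s2 a1.le hpp.symm)
      (a7 q hq) (b7 q hq')
  have c1 := card_union_of_disjoint d1
  rw [card_biUnion d2] at c1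
  have c2 : ∑ e ∈ E, G e + ∑ e ∈ E, wt d f M e ≤ ∑ e ∈ E, (R e).card := by
    rw [← sum_add_distrib]
    exact sum_le_sum fun e he => (hR e he).2.2.2.2.2.1
  have g1 : ∀ e ∈ E, G e ≤ ∑ e ∈ E, G e := fun e he =>
    single_le_sum (f := G) (fun _ _ => Nat.zero_le _) he
  have cross : ∀ e ∈ E, ∀ a ∈ R e, ∀ b ∈ PC,
      d a b ≤ 2 * (∑ v ∈ C, f v + ∑ e ∈ E, G e + 1) := by
    intro e he a ha b hb
    obtain ⟨a1, -, ⟨z, z1, z2⟩, -, -, -, -, -, a9⟩ := hR e he
    have := h.pc_dist (mem_filter.1 hb).2 z1 z2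
    have := a9 a ha
    have := T.tri a e.1 b
    have := T.tri e.1 e.2 b
    have := g1 e he
    rw [← hC] at *
    omega
  have c3 := h.mp (PC ∪ E.biUnion R) (union_subset (filter_subset _ _)
    (biUnion_subset.2 fun e he => (hR e he).2.2.2.2.1)) (∑ v ∈ C, f v + ∑ e ∈ E, G e + 1)
    (by omega) (by
    intro a ha b hb
    rcases mem_union.1 ha with ha | ha <;> rcases mem_union.1 hb with hb | hb
    · have := h.pc_dist (mem_filter.1 hb).2 (h.home_mem (mem_filter.1 ha).2) (h.anc1 a).1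
      have := h.anc1 a
      have := T.tri a (anc a).1 b
      have := T.symm a (anc a).1
      rw [← hC] at *
      omega
    · obtain ⟨e, he, hb⟩ := mem_biUnion.1 hb
      rw [T.symm]
      exact cross e he b hb a ha
    · obtain ⟨e, he, ha⟩ := mem_biUnion.1 ha
      exact cross e he a ha b hb
    · obtain ⟨e, he, ha⟩ := mem_biUnion.1 ha
      obtain ⟨e', he', hb⟩ := mem_biUnion.1 hb
      obtain ⟨a1, -, ⟨z, z1, z2⟩, -, -, -, -, a8, a9⟩ := hR e he
      obtain ⟨b1, -, ⟨z', z1', z2'⟩, -, -, -, -, -, b9⟩ := hR e' he'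
      by_cases hne : e = e'
      · subst hne
        have := a8 a ha b hb
        have := g1 e he
        omega
      · have := add_le_sum (f := G) (fun _ _ => Nat.zero_le _) he he' hne
        have := diam_le T (cl_conn v0) z1 z1' z2 z2'
        have := a9 a ha
        have := b9 b hb
        have := T.tri a e.1 b
        have := T.tri e.1 e.2 b
        have := T.tri e.2 e'.2 b
        have := T.tri e'.2 e'.1 b
        have := T.symm e'.2 e'.1
        have := T.symm e'.1 b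
        rw [← hC] at *
        omega)
  omega

end Glob

end Pool.Agent.MP_8cd4dc_co

end MrgPart0

-- ======== part 1: formerly Pool.Agent.MP_8cd4dc_co.Total
section MrgPart1

set_option autoImplicit false

namespace Pool.Agent.MP_8cd4dc_co

open Finset

variable {V : Type*}

theorem Ex.weaken {d : V → V → ℕ} {f : V → ℕ} {Q : Finset (V × ℕ)} {C : Finset V} {vt : V → Prop}
    {p y : V} (h : Ex d f Q C vt p y 2) : Ex d f Q C vt p y 1 := by
  obtain ⟨a, b, c, R, r1, F, r2, r3, r4, r5⟩ := h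
  exact ⟨a, b, c, R, r1, F, r2, r3, r4, fun π hπ => by have := r5 π hπ; omega⟩

/-- Every subfamily of `Q` is represented by points of `M` taken from `A`. -/
def Realz (d : V → V → ℕ) (M : Finset V) (Q : Finset (V × ℕ)) (A : V → Prop) : Prop :=
  ∀ R ⊆ Q, ∃ R' ⊆ M, ∃ Φ : ℕ, R.card + Φ ≤ R'.card ∧
    (∀ a ∈ R', ∀ p, ∃ π ∈ R, d a p ≤ d π.1 p + π.2 + 2 * Φ) ∧
    (∀ a ∈ R', ∀ b ∈ R', d a b ≤ 2 * Φ + 2 ∨
      ∃ π ∈ R, ∃ π' ∈ R, π ≠ π' ∧ d a b ≤ d π.1 π'.1 + π.2 + π'.2 + 2 * Φ) ∧ ∀ a ∈ R', A a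

namespace Glob

variable [Fintype V] [DecidableEq V] {d : V → V → ℕ} {f : V → ℕ} {M : Finset V} {home : V → V}
  {anc : V → V × ℕ} (h : Glob d f M home anc)
include h

omit [Fintype V] in
theorem anc_inj {a b : V} (ha : a ∈ M) (hb : b ∈ M) (e0 : anc a = anc b) : a = b := by
  by_contra hne
  have x1 := h.anc1 a
  have x2 := h.anc1 b
  rw [← e0] at x2
  have := h.tm.tri a (anc a).1 b
  have := h.tm.symm a (anc a).1
  have := h.tm.symm a b
  have := h.mp {a, b} (by intro x hx; simp at hx; rcases hx with rfl | rfl <;> assumption) 1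
    le_rfl (by
      intro x hx y hy
      simp at hx hy
      rcases hx with rfl | rfl <;> rcases hy with rfl | rfl <;>
        first | omega | (rw [h.tm.self]; omega))
  rw [card_pair hne] at this
  omega

omit [Fintype V] in
theorem real0 {P : Finset V} (hP : P ⊆ M) (R : Finset (V × ℕ)) (hR : R ⊆ P.image anc) :
    ∃ R' ⊆ P, R.card ≤ R'.card ∧ (∀ a ∈ R', anc a ∈ R) ∧
    (∀ a ∈ R', ∀ p, d a p ≤ d (anc a).1 p + (anc a).2) ∧
    (∀ a ∈ R', ∀ b ∈ R', d a b = 0 ∨
      ∃ π ∈ R, ∃ π' ∈ R, π ≠ π' ∧ d a b ≤ d π.1 π'.1 + π.2 + π'.2) := by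
  have T := h.tm
  have key : ∀ a p, d a p ≤ d (anc a).1 p + (anc a).2 := fun a p => by
    have := h.anc1 a
    have := T.tri a (anc a).1 p
    have := T.symm a (anc a).1
    omega
  refine ⟨P.filter fun a => anc a ∈ R, filter_subset _ _, ?_, fun a ha => (mem_filter.1 ha).2,
    fun a _ p => key a p, fun a ha b hb => ?_⟩
  · refine le_trans (card_le_card fun π hπ => ?_) (card_image_le (f := anc))
    obtain ⟨a, a1, rfl⟩ := mem_image.1 (hR hπ)
    exact mem_image_of_mem _ (mem_filter.2 ⟨a1, hπ⟩)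
  · by_cases e0 : a = b
    · exact Or.inl (e0 ▸ T.self a)
    · obtain ⟨a1, a2⟩ := mem_filter.1 ha
      obtain ⟨b1, b2⟩ := mem_filter.1 hb
      refine Or.inr ⟨_, a2, _, b2, fun x => e0 (h.anc_inj (hP a1) (hP b1) x), ?_⟩
      have := key a b
      have := key b (anc a).1
      have := T.symm b (anc a).1
      have := T.symm (anc b).1 (anc a).1
      omega

omit [DecidableEq V] in
theorem pre_of {v0 : V} {Q : Finset (V × ℕ)} {vt : V → Prop} {A : V → Prop}
    (hQ : ∀ π ∈ Q, (∃ a, cl d f (home a) = cl d f v0 ∧ anc a = π) ∨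
      (π.2 = 1 ∧ ∃ z ∈ cl d f v0, vt z ∧ Sing d f z π.1))
    (hr : Realz d M Q A) (hc : ∑ v ∈ cl d f v0, f v + 1 ≤ Q.card) :
    Pre d f Q (cl d f v0) vt := by
  have ra : ∀ v ∈ cl d f v0, Act d f Q v → ¬ vt v → Ra d f v := by
    rintro v hv ⟨x, x1, x2⟩ hn
    rcases hQ _ x2 with ⟨a, -, a2⟩ | ⟨-, z, z1, z2, z3⟩
    · rcases h.hanc a with b | b
      · rw [a2] at b; simp at b
      · rw [a2] at b
        exact ⟨x, a, x1, b.2.2.1, b.2.2.2⟩
    · by_cases e0 : v = z
      · exact absurd (e0 ▸ z2) hn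
      · have := z3.1.2.1 v e0 (mem_cl.1 hv).1
        have := x1.1.1
        simp only at *
        omega
  refine ⟨h.tm, fun v hv => (mem_cl.1 hv).1, cl_closed, h.irr, fun π hπ => ?_,
    fun R hR k hk hd => ?_, hc, fun v hv a n => h.r1 v (mem_cl.1 hv).1 (ra v hv a n),
    fun v hv t ht a a' n n' => h.r2 v t (mem_cl.1 hv).1 (mem_cl.1 ht).1 (ra v hv a n)
      (ra t ht a' n')⟩
  · rcases hQ _ hπ with ⟨a, a1, rfl⟩ | ⟨e1, z, z1, -, z3⟩
    · refine ⟨home a, h.home_mem a1, ?_⟩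
      rcases h.hanc a with b | b
      · left; rw [b.1]; exact ⟨rfl, b.2⟩
      · exact Or.inr ⟨b.1, b.2.1⟩
    · exact ⟨z, z1, Or.inr ⟨e1, z3⟩⟩
  · obtain ⟨R', r1, Φ, r2, -, r4, -⟩ := hr R hR
    have := h.mp R' r1 (k + Φ) (by omega) fun a ha b hb => by
      rcases r4 a ha b hb with x | ⟨π, x1, π', x2, x3, x4⟩
      · omega
      · have := hd π x1 π' x2 x3
        omega
    omega

omit [DecidableEq V] in
theorem out_side {v0 p y : V} {Q : Finset (V × ℕ)} {vt : V → Prop} {w : ℕ}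
    (hx : Ex d f Q (cl d f v0) vt p y w) :
    ∀ t' ∈ cl d f v0, ∀ q', d t' q' ≤ f t' → d q' p < d q' y := by
  obtain ⟨a, ⟨z, z1, z2, z3, z4⟩, ⟨t, t1, -, t3⟩, -⟩ := hx
  refine h.one_side (by rw [h.tm.symm]; exact a) (fun t' ht' b => ?_) t1 t3
    (by rw [h.tm.self]; omega)
  have := z3.1.2.1 t' (fun e0 => z2 (e0 ▸ ht')) (mem_cl.1 ht').1
  omega

omit [DecidableEq V] in
theorem str_of {v0 p y : V} {Q : Finset (V × ℕ)} {vt : V → Prop} {A : V → Prop} {w : ℕ}
    (hr : Realz d M Q A) (hx : Ex d f Q (cl d f v0) vt p y w)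
    (hA : ∀ a, A a → d a p < d a y) : Str d f M p y w ∧ cl d f (home p) = cl d f v0 := by
  obtain ⟨a, ⟨z, z1, z2, z3, z4⟩, ⟨t, t1, -, t3⟩, R, r1, F, r2, r3, r4, r5⟩ := hx
  obtain ⟨R', s1, Φ, s2, s3, s4, s5⟩ := hr R r1
  refine ⟨⟨a, ⟨t, (mem_cl.1 t1).1, t3⟩, ⟨z, z1, z3, z4⟩, R', s1, F + Φ, by omega, by omega,
    fun x hx => hA x (s5 x hx), fun x hx x' hx' => ?_, fun x hx => ?_⟩, h.K_eq t1 t3⟩
  · rcases s4 x hx x' hx' with b | ⟨π, x1, π', x2, x3, x4⟩
    · omega
    · have := r4 π x1 π' x2 x3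
      omega
  · obtain ⟨π, x1, x2⟩ := s3 x hx p
    have := r5 π x1
    omega

theorem L2 {v0 : V} (hv0 : 0 < f v0) :
    14 * (M.filter fun q => cl d f (home q) = cl d f v0).card +
      7 * ∑ e ∈ univ.filter (fun e : V × V => cl d f (home e.2) = cl d f v0), wt d f M e ≤
      15 * ∑ v ∈ cl d f v0, f v +
      7 * ∑ e ∈ univ.filter (fun e : V × V => cl d f (home e.1) = cl d f v0), wt d f M e := by
  have T := h.tm
  have l1 := h.L1 hv0
  set PC := M.filter fun q => cl d f (home q) = cl d f v0 with hPC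
  set In := ∑ e ∈ univ.filter (fun e : V × V => cl d f (home e.2) = cl d f v0), wt d f M e with hIn
  set Eo := univ.filter (fun e : V × V => cl d f (home e.1) = cl d f v0) with hEo
  have o1 : ∀ p y, cl d f (home p) = cl d f v0 → wt d f M (p, y) ≤ ∑ e ∈ Eo, wt d f M e :=
    fun p y a => single_le_sum (f := wt d f M) (fun _ _ => Nat.zero_le _)
      (mem_filter.2 ⟨mem_univ _, a⟩)
  have hPM : PC ⊆ M := filter_subset _ _
  have hcard : (PC.image anc).card = PC.card :=
    card_image_of_injOn fun a ha b hb e0 => h.anc_inj (hPM ha) (hPM hb) e0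
  have hyd : ∀ {p y : V} {Q : Finset (V × ℕ)} {vt : V → Prop} {w : ℕ},
      Ex d f Q (cl d f v0) vt p y w → ∀ a ∈ PC, d a p < d a y := by
    intro p y Q vt w hx a ha
    have s := h.out_side hx
    obtain ⟨x1, ⟨z, z1, -, z3, -⟩, -⟩ := hx
    exact h.pc_side (by rw [T.symm]; exact x1) ⟨z, z1, z3.1.1⟩ s (mem_filter.1 ha).2
  by_cases c0 : PC.card + In ≤ ∑ v ∈ cl d f v0, f v ∨ 2 ≤ In
  · omega
  by_cases c1 : In = 0
  · have hr : Realz d M (PC.image anc) (fun a => a ∈ PC) := by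
      intro R hR
      obtain ⟨R', r1, r2, r3, r4, r5⟩ := h.real0 hPM R hR
      refine ⟨R', r1.trans hPM, 0, r2, fun a ha p => ⟨_, r3 a ha, r4 a ha p⟩,
        fun a ha b hb => ?_, fun a ha => r1 ha⟩
      rcases r5 a ha b hb with x | x
      · left; omega
      · exact Or.inr x
    have hp := h.pre_of (v0 := v0) (vt := fun _ => False) (fun π hπ => by
      obtain ⟨a, a1, a2⟩ := mem_image.1 hπ
      exact Or.inl ⟨a, (mem_filter.1 a1).2, a2⟩) hr (by omega)
    obtain ⟨m, c, lo, hi, s, e, cf⟩ := hp.line ⟨v0, cl_self hv0⟩ (cl_conn v0)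
    rcases cf.both (fun _ _ a => a.elim) with ⟨a, ⟨_, b⟩ | ⟨p, y, b⟩⟩ | ⟨⟨_, a⟩, -⟩ |
      ⟨p, y, p', y', a, b, b'⟩ | ⟨p, y, b⟩
    · exact b.elim
    · obtain ⟨x1, x2⟩ := h.str_of hr b (hyd b)
      have := le_wt_one x1
      have := o1 p y x2
      omega
    · exact a.elim
    · obtain ⟨x1, x2⟩ := h.str_of hr b (hyd b)
      obtain ⟨x1', x2'⟩ := h.str_of hr b' (hyd b')
      have := le_wt_one x1
      have := le_wt_one x1'
      have := add_le_sum (s := Eo) (f := wt d f M) (fun _ _ => Nat.zero_le _)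
        (mem_filter.2 ⟨mem_univ (p, y), x2⟩) (mem_filter.2 ⟨mem_univ (p', y'), x2'⟩) a
      omega
    · obtain ⟨x1, x2⟩ := h.str_of hr b (hyd b)
      have := le_wt_two x1
      have := o1 p y x2
      omega
  obtain ⟨⟨p0, y0⟩, e1, e2⟩ := exists_ne_zero_of_sum_ne_zero c1
  have e3 : wt d f M (p0, y0) ≤ In := single_le_sum (f := wt d f M) (fun _ _ => Nat.zero_le _) e1
  have e4 := (wt_spec (d := d) (f := f) (M := M) (p0, y0)).2 e2
  rw [show wt d f M (p0, y0) = 1 by omega] at e4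
  obtain ⟨a1, a2, ⟨z0, z1, z2, z3⟩, Qin, q1, F0, q2, q3, q4, q5, q6⟩ := e4
  obtain ⟨z4, z5⟩ := h.in_side a1 z1 z2 z3 (mem_filter.1 e1).2
  simp only at a1 a2 z2 z3 q4 q6 z5
  have hdis : ∀ a ∈ PC, a ∉ Qin := fun a ha hq => by
    have := h.pc_side a1 a2 z5 (mem_filter.1 ha).2
    have := q4 a hq
    omega
  have hnear : ∀ a ∈ Qin, ∀ p, d a p ≤ d y0 p + 1 + 2 * F0 := fun a ha p => by
    have := q6 a ha
    have := T.tri a p0 p
    have := T.tri p0 y0 p
    omega
  have hnot : (y0, 1) ∉ PC.image anc := by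
    intro hm
    obtain ⟨a, b1, b2⟩ := mem_image.1 hm
    have b3 := (h.anc1 a).2.1
    rw [b2] at b3
    have := h.mp (insert a Qin) (insert_subset (hPM b1) q1) (F0 + 1) (by omega) (by
      intro x hx y hy
      simp only at b3
      rcases mem_insert.1 hx with ex | hx' <;> rcases mem_insert.1 hy with ey | hy'
      · rw [ex, ey, T.self]; omega
      · have := hnear y hy' a
        rw [ex, T.symm]
        omega
      · have := hnear x hx' a
        rw [ey]
        omega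
      · have := q5 x hx' y hy'
        omega)
    rw [card_insert_of_notMem (hdis a b1)] at this
    omega
  have hr : Realz d M (insert (y0, 1) (PC.image anc)) (fun a => a ∈ PC ∨ a ∈ Qin) := by
    intro R hR
    obtain ⟨R', r1, r2, r3, r4, r5⟩ := h.real0 hPM (R.erase (y0, 1)) (subset_insert_iff.1 hR)
    by_cases hm : (y0, 1) ∈ R
    · have := card_erase_of_mem hm
      have := card_pos.2 ⟨_, hm⟩
      have hd : Disjoint R' Qin := disjoint_left.2 fun a ha => hdis a (r1 ha)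
      have mix : ∀ a ∈ R', ∀ b ∈ Qin, d b a ≤ d y0 (anc a).1 + 1 + (anc a).2 + 2 * F0 := by
        intro a ha b hb
        have := hnear b hb a
        have := r4 a ha y0
        have := T.symm a y0
        have := T.symm (anc a).1 y0
        omega
      refine ⟨R' ∪ Qin, union_subset (r1.trans hPM) q1, F0,
        by rw [card_union_of_disjoint hd]; omega, fun a ha p => ?_, fun a ha b hb => ?_,
        fun a ha => (mem_union.1 ha).imp (fun x => r1 x) id⟩
      · rcases mem_union.1 ha with ha | ha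
        · exact ⟨_, mem_of_mem_erase (r3 a ha), by have := r4 a ha p; omega⟩
        · exact ⟨_, hm, hnear a ha p⟩
      · rcases mem_union.1 ha with ha | ha <;> rcases mem_union.1 hb with hb | hb
        · rcases r5 a ha b hb with x | ⟨π, x1, π', x2, x3, x4⟩
          · left; omega
          · exact Or.inr ⟨π, mem_of_mem_erase x1, π', mem_of_mem_erase x2, x3, by omega⟩
        · refine Or.inr ⟨_, hm, _, mem_of_mem_erase (r3 a ha), (ne_of_mem_erase (r3 a ha)).symm, ?_⟩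
          rw [T.symm]
          exact mix a ha b hb
        · exact Or.inr ⟨_, hm, _, mem_of_mem_erase (r3 b hb), (ne_of_mem_erase (r3 b hb)).symm,
            mix b hb a ha⟩
        · exact Or.inl (q5 a ha b hb)
    · rw [erase_eq_of_notMem hm] at r2 r3 r5
      refine ⟨R', r1.trans hPM, 0, r2, fun a ha p => ⟨_, r3 a ha, r4 a ha p⟩,
        fun a ha b hb => ?_, fun a ha => Or.inl (r1 ha)⟩
      rcases r5 a ha b hb with x | x
      · left; omega
      · exact Or.inr x
  have hp := h.pre_of (v0 := v0) (vt := fun v => v = z0) (fun π hπ => by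
    rcases mem_insert.1 hπ with rfl | hπ
    · exact Or.inr ⟨rfl, z0, z4, rfl, z2⟩
    · obtain ⟨a, a1, a2⟩ := mem_image.1 hπ
      exact Or.inl ⟨a, (mem_filter.1 a1).2, a2⟩) hr
    (by rw [card_insert_of_notMem hnot]; omega)
  obtain ⟨m, c, lo, hi, s, e, cf⟩ := hp.line ⟨v0, cl_self hv0⟩ (cl_conn v0)
  have fin : ∀ p y, Ex d f (insert (y0, 1) (PC.image anc)) (cl d f v0) (fun v => v = z0) p y 1 →
      1 ≤ ∑ e ∈ Eo, wt d f M e := by
    intro p y b
    have s1 := h.out_side b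
    obtain ⟨x1, x2⟩ := h.str_of hr b (by
      rintro a (ha | ha)
      · exact hyd b a ha
      obtain ⟨b1, -, ⟨t, t1, t2, t3⟩, -⟩ := b
      have b1' : d y p = 1 := by rw [T.symm]; exact b1
      have u1 := s1 z0 z4 y0 z2.1.1
      have u2 := z5 t t1 p t3
      have u3 : p ≠ y0 := by
        rintro rfl
        have := z2.1.2.1 t t2 (mem_cl.1 t1).1
        omega
      have u4 : y ≠ p0 := by
        rintro rfl
        exact u3 (T.cross b1' (q := y) (by rw [T.self]; omega) u1 a1.le).2.symm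
      rcases T.adj_cases a b1 with g | g
      · omega
      · exact (T.outer_disj b1' a1 (T.side_nbr b1' u1 a1.le u4.symm)
          (T.side_nbr a1 u2 b1'.le u4) (q := a) (by omega) (q4 a ha)).elim)
    exact (le_wt_one x1).trans (o1 p y x2)
  rcases cf.both (fun _ _ a b => a.trans b.symm) with ⟨a, -⟩ | ⟨-, p, y, b⟩ |
    ⟨p, y, p', y', -, b, -⟩ | ⟨p, y, b⟩
  · omega
  · have := fin p y b; omega
  · have := fin p y b; omega
  · have := fin p y b.weaken; omega

theorem total : 14 * M.card ≤ 15 * ∑ v, f v := by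
  let 𝒞 := (univ.filter fun v => 0 < f v).image (cl d f)
  have hK : ∀ q, cl d f (home q) ∈ 𝒞 := fun q =>
    mem_image_of_mem _ (mem_filter.2 ⟨mem_univ _, h.hpos q⟩)
  have e1 := card_eq_sum_card_fiberwise (s := M) (t := 𝒞) (f := fun q => cl d f (home q))
    fun q _ => hK q
  have e2 := sum_fiberwise_of_maps_to (s := (univ : Finset (V × V))) (t := 𝒞)
    (g := fun e => cl d f (home e.2)) (fun e _ => hK e.2) (wt d f M)
  have e3 := sum_fiberwise_of_maps_to (s := (univ : Finset (V × V))) (t := 𝒞)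
    (g := fun e => cl d f (home e.1)) (fun e _ => hK e.1) (wt d f M)
  have e4 := sum_fiberwise_of_maps_to (s := univ.filter fun v => 0 < f v) (t := 𝒞)
    (g := cl d f) (fun v hv => mem_image_of_mem _ hv) f
  have e5 : ∑ C ∈ 𝒞, ∑ v ∈ C, f v = ∑ v ∈ univ.filter fun v => 0 < f v, f v := by
    rw [← e4]
    refine sum_congr rfl fun C hC => ?_
    obtain ⟨v0, hv0, rfl⟩ := mem_image.1 hC
    congr 1
    ext v
    simp only [mem_filter, mem_univ, true_and]
    exact ⟨fun a => ⟨(mem_cl.1 a).1, cl_eq a⟩, fun a => a.2 ▸ cl_self a.1⟩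
  have e6 : ∑ v ∈ univ.filter fun v => 0 < f v, f v ≤ ∑ v, f v :=
    sum_le_sum_of_subset (filter_subset _ _)
  have e7 := sum_le_sum (s := 𝒞) fun C hC => (by
    obtain ⟨v0, hv0, rfl⟩ := mem_image.1 hC
    exact h.L2 (mem_filter.1 hv0).2 :
    14 * (M.filter fun q => cl d f (home q) = C).card +
      7 * ∑ e ∈ univ.filter (fun e : V × V => cl d f (home e.2) = C), wt d f M e ≤
      15 * ∑ v ∈ C, f v +
      7 * ∑ e ∈ univ.filter (fun e : V × V => cl d f (home e.1) = C), wt d f M e)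
  rw [sum_add_distrib, sum_add_distrib, ← mul_sum, ← mul_sum, ← mul_sum, ← mul_sum] at e7
  omega

end Glob

end Pool.Agent.MP_8cd4dc_co

end MrgPart1

-- ======== part 2: formerly Pool.Agent.MP_8cd4dc_co.Raise
section MrgPart2

set_option autoImplicit false

namespace Pool.Agent.MP_8cd4dc_co

open Finset

variable {V : Type*} {d : V → V → ℕ} {f : V → ℕ}

theorem kill {g : V → ℕ} (hg : ∀ x, f x ≤ g x) {z : V} (hz : g z = f z)
    (hn : ∀ y, ¬ PB d g z y) {y : V} (hy : PB d f z y) : ∃ w, f w < g w ∧ d w y ≤ g w := by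
  by_contra hw
  push Not at hw
  refine hn y ⟨hz ▸ hy.1, fun w w1 w2 => ?_, hz ▸ hy.2.2⟩
  rcases Nat.eq_or_lt_of_le (hg w) with e0 | e0
  · rw [← e0] at w2 ⊢
    exact hy.2.1 w w1 w2
  · exact hw w e0

/-- The upper bound in metric form. -/
theorem pack_le [Fintype V] [DecidableEq V] [Nontrivial V] (T : IsTM d)
    (irr : ∀ w, 0 < f w → ∃ y, PB d f w y)
    (mx : ∀ g : V → ℕ, (∀ x, f x ≤ g x) → (∃ x, f x < g x) → (∀ x, f x < g x → ∃ u, g x ≤ d x u) →
      ∃ z, 0 < g z ∧ ∀ y, ¬ PB d g z y)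
    {M : Finset V}
    (mp : ∀ Q ⊆ M, ∀ k, 1 ≤ k → (∀ a ∈ Q, ∀ b ∈ Q, d a b ≤ 2 * k) → Q.card ≤ k) :
    14 * M.card ≤ 15 * ∑ v, f v := by
  have un : ∀ u, ¬ Heard d f u → ∀ w, 0 < f w → f w < d w u := fun u hu w hw => by
    by_contra hn
    exact hu ⟨w, hw, by omega⟩
  have n1 : ∀ u, ¬ Heard d f u → ∃ v x, 0 < f v ∧ Sing d f v x ∧ d x u = 1 := by
    intro u hu
    have f0 : f u = 0 := by
      by_contra hn
      have := un u hu u (by omega)
      rw [T.self] at this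
      omega
    let g : V → ℕ := fun x => if x = u then 1 else f x
    have g1 : g u = 1 := if_pos rfl
    have g2 : ∀ x, x ≠ u → g x = f x := fun x hx => if_neg hx
    have g3 : ∀ x, f x < g x → x = u := fun x hx => by
      by_contra hn
      rw [g2 x hn] at hx
      omega
    have g4 : ∀ x, f x ≤ g x := fun x => by
      by_cases e0 : x = u
      · rw [e0]; omega
      · exact (g2 x e0).ge
    obtain ⟨z, z1, z2⟩ := mx g g4 ⟨u, by omega⟩ fun x hx => by
      obtain ⟨u', hu'⟩ := exists_ne u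
      refine ⟨u', ?_⟩
      rw [g3 x hx, g1]
      by_contra hn
      exact hu' (T.eq_of u u' (by omega)).symm
    have zu : z ≠ u := by
      rintro rfl
      exact z2 z ⟨by rw [T.self]; omega, fun w w1 w2 => by
        rw [g2 w w1] at w2 ⊢
        exact un z hu w w2, Or.inl g1⟩
    rw [g2 z zu] at z1
    have hzu := un u hu z z1
    have key : ∀ y, PB d f z y → d y u = 1 ∧ d z y = f z := fun y hy => by
      obtain ⟨w, w1, w2⟩ := kill g4 (g2 z zu) z2 hy
      rw [g3 w w1, g1] at w2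
      have := hy.1
      have := T.tri z y u
      have := T.symm u y
      omega
    obtain ⟨y, hy⟩ := irr z z1
    refine ⟨z, y, z1, ⟨hy, fun y' hy' => ?_, (key y hy).2⟩, (key y hy).1⟩
    have k1 := key y hy
    have k2 := key y' hy'
    have := T.side_ball (a := u) (b := y) (by rw [T.symm]; exact k1.1) (by omega) hzu hy'.1
    exact T.eq_of _ _ (by omega)
  have ch : ∀ q, ∃ (v : V) (π : V × ℕ), 0 < f v ∧ ((π = (q, 0) ∧ d v q ≤ f v) ∨
      (π.2 = 1 ∧ Sing d f v π.1 ∧ d π.1 q = 1 ∧ ¬ Heard d f q)) := fun q => by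
    by_cases hq : Heard d f q
    · obtain ⟨w, w1, w2⟩ := hq
      exact ⟨w, (q, 0), w1, Or.inl ⟨rfl, w2⟩⟩
    · obtain ⟨v, x, a, b, c⟩ := n1 q hq
      exact ⟨v, (x, 1), a, Or.inr ⟨rfl, b, c, hq⟩⟩
  choose home anc h1 h2 using ch
  refine Glob.total (d := d) (home := home) (anc := anc) ⟨T, irr, mp, h1, h2, ?_, ?_⟩
  · rintro v hv ⟨x, u, hx, xu, hu⟩
    let g : V → ℕ := fun w => if w = v then f v + 1 else f w
    have g1 : g v = f v + 1 := if_pos rfl
    have g2 : ∀ w, w ≠ v → g w = f w := fun w hw => if_neg hw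
    have g3 : ∀ w, f w < g w → w = v := fun w hw => by
      by_contra hn
      rw [g2 w hn] at hw
      omega
    have g4 : ∀ w, f w ≤ g w := fun w => by
      by_cases e0 : w = v
      · rw [e0]; omega
      · exact (g2 w e0).ge
    have a1 := un u hu v hv
    have a2 := T.tri v x u
    have a3 := hx.2.2
    obtain ⟨z, z1, z2⟩ := mx g g4 ⟨v, by omega⟩ fun w hw => ⟨u, by rw [g3 w hw]; omega⟩
    have zv : z ≠ v := by
      rintro rfl
      exact z2 u ⟨by omega, fun w w1 w2 => by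
        rw [g2 w w1] at w2 ⊢
        exact un u hu w w2, Or.inr (by omega)⟩
    refine ⟨z, zv, g2 z zv ▸ z1, fun y hy => ?_⟩
    obtain ⟨w, w1, w2⟩ := kill g4 (g2 z zv) z2 hy
    rw [g3 w w1, g1] at w2
    exact w2
  · rintro v t hv ht ⟨x, u, hx, xu, hu⟩ ⟨x', u', hx', xu', hu'⟩ hne hvt
    let g : V → ℕ := fun w => if w = v ∨ w = t then f w + 1 else f w
    have g1 : g v = f v + 1 := if_pos (Or.inl rfl)
    have g1' : g t = f t + 1 := if_pos (Or.inr rfl)
    have g2 : ∀ w, w ≠ v → w ≠ t → g w = f w := fun w hw hw' => if_neg (by tauto)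
    have g3 : ∀ w, f w < g w → w = v ∨ w = t := fun w hw => by
      by_contra hn
      push Not at hn
      rw [g2 w hn.1 hn.2] at hw
      omega
    have g4 : ∀ w, f w ≤ g w := fun w => by
      simp only [g]
      split_ifs <;> omega
    have a1 := un u hu v hv
    have a2 := T.tri v x u
    have a3 := hx.2.2
    have b1 := un u' hu' t ht
    have b2 := T.tri t x' u'
    have b3 := hx'.2.2
    have c1 := hx.1.2.1 t hne.symm ht
    have c2 := hx'.1.2.1 v hne hv
    have c3 := T.side_ball (a := u) (b := x) (by rw [T.symm]; exact xu) (by omega) a1 hvt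
    have c4 := T.side_ctr (a := u') (b := x') (by rw [T.symm]; exact xu') (q := t) (by omega)
      (un u' hu' v hv) hvt
    obtain ⟨z, z1, z2⟩ := mx g g4 ⟨v, by omega⟩ fun w hw => by
      rcases g3 w hw with rfl | rfl
      · exact ⟨u, by omega⟩
      · exact ⟨u', by omega⟩
    have zv : z ≠ v := by
      rintro rfl
      refine z2 u ⟨by omega, fun w w1 w2 => ?_, Or.inr (by omega)⟩
      by_cases e0 : w = t
      · rw [e0]; omega
      · rw [g2 w w1 e0] at w2 ⊢
        exact un u hu w w2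
    have zt : z ≠ t := by
      rintro rfl
      refine z2 u' ⟨by omega, fun w w1 w2 => ?_, Or.inr (by omega)⟩
      by_cases e0 : w = v
      · rw [e0]; omega
      · rw [g2 w e0 w1] at w2 ⊢
        exact un u' hu' w w2
    refine ⟨z, zv, zt, g2 z zv zt ▸ z1, fun y hy => ?_⟩
    obtain ⟨w, w1, w2⟩ := kill g4 (g2 z zv zt) z2 hy
    rcases g3 w w1 with rfl | rfl
    · left; omega
    · right; omega

/-- A criterion for maximality when all vertices outside the balls are leaves. -/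
theorem max_of_leaves (own xx tgt : V → V)
    (H : ∀ q, ¬ Heard d f q → 0 < f (own q) ∧ d (own q) q ≤ f (own q) + 1 ∧
      (∀ y, PB d f (own q) y → y = xx q) ∧ (∀ w, d w (xx q) ≤ max (d w q) 1) ∧
      0 < f (tgt q) ∧ tgt q ≠ own q ∧ (∀ y, PB d f (tgt q) y → d (own q) y ≤ f (own q) + 1) ∧
      ∀ q', ¬ Heard d f q' → own q' ≠ tgt q)
    {g : V → ℕ} (hg : ∀ x, f x ≤ g x) (irr : ∀ w, 0 < g w → ∃ y, PB d g w y) (x : V) :
    ¬ f x < g x := by
  have back : ∀ z y, g z = f z → PB d g z y → PB d f z y := fun z y e0 hy =>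
    ⟨e0 ▸ hy.1, fun w w1 w2 => lt_of_le_of_lt (hg w) (hy.2.1 w w1 (lt_of_lt_of_le w2 (hg w))),
      e0 ▸ hy.2.2⟩
  have key : ∀ w, f w < g w → ∃ q, ¬ Heard d f q ∧ own q = w := by
    intro w hw
    obtain ⟨q, q1, q2, q3⟩ := irr w (by omega)
    have hq : ¬ Heard d f q := by
      rintro ⟨t, t1, t2⟩
      by_cases e0 : t = w
      · subst e0; omega
      · have := q2 t e0 (lt_of_lt_of_le t1 (hg t))
        have := hg t
        omega
    refine ⟨q, hq, ?_⟩
    by_contra hne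
    obtain ⟨h1, h2, h3, h4, -⟩ := H q hq
    rcases Nat.eq_or_lt_of_le (hg (own q)) with e0 | e0
    · obtain ⟨y, hy⟩ := irr (own q) (by omega)
      have := h3 y (back _ _ e0.symm hy)
      subst this
      have := hy.2.1 w (fun e1 => hne e1.symm) (by omega)
      have := h4 w
      omega
    · have := q2 (own q) hne (by omega)
      omega
  intro hx
  obtain ⟨q, hq, rfl⟩ := key x hx
  obtain ⟨-, -, -, -, h5, h6, h7, h8⟩ := H q hq
  rcases Nat.eq_or_lt_of_le (hg (tgt q)) with e0 | e0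
  · obtain ⟨y, hy⟩ := irr (tgt q) (by omega)
    have := h7 y (back _ _ e0.symm hy)
    have := hy.2.1 (own q) h6.symm (by omega)
    omega
  · obtain ⟨q', a, b⟩ := key _ e0
    exact h8 q' a b

/-- A table that behaves like the distance function is the distance function. -/
theorem dist_eq_of {G : SimpleGraph V} (D : V → V → ℕ) (h0 : ∀ a, D a a = 0)
    (h1 : ∀ a b c, G.Adj b c → D a c ≤ D a b + 1)
    (h2 : ∀ a b, a ≠ b → ∃ c, G.Adj c b ∧ D a c < D a b) :
    (∀ a b, G.Reachable a b) ∧ ∀ a b, G.dist a b = D a b := by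
  have up : ∀ a n b, D a b ≤ n → ∃ p : G.Walk a b, p.length ≤ D a b := by
    intro a n
    induction n with
    | zero =>
      intro b hb
      by_cases e0 : a = b
      · subst e0; exact ⟨.nil, by simp⟩
      · obtain ⟨c, -, hc⟩ := h2 a b e0
        omega
    | succ n ih =>
      intro b hb
      by_cases e0 : a = b
      · subst e0; exact ⟨.nil, by simp⟩
      · obtain ⟨c, c1, c2⟩ := h2 a b e0
        obtain ⟨p, hp⟩ := ih c (by omega)
        exact ⟨p.concat c1, by rw [SimpleGraph.Walk.length_concat]; omega⟩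
  have low : ∀ a b c (p : G.Walk b c), D a c ≤ D a b + p.length := by
    intro a b c p
    induction p with
    | nil => simp
    | cons hadj p ih =>
      have := h1 a _ _ hadj
      rw [SimpleGraph.Walk.length_cons]
      omega
  refine ⟨fun a b => (up a _ b le_rfl).elim fun p _ => ⟨p⟩, fun a b => le_antisymm ?_ ?_⟩
  · obtain ⟨p, hp⟩ := up a _ b le_rfl
    exact (SimpleGraph.dist_le p).trans hp
  · obtain ⟨p, -⟩ := up a _ b le_rfl
    obtain ⟨p, hp⟩ := SimpleGraph.Reachable.exists_walk_length_eq_dist ⟨p⟩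
    have := low a a b p
    rw [h0] at this
    omega

end Pool.Agent.MP_8cd4dc_co

end MrgPart2

-- marker of a merged file
example : 731051 + 766905 = 731051 + 766905 := rfl
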