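import Pool.Agent.MP_8cd4dc_co.Raise

set_option autoImplicit false

namespace Pool.Agent.MP_8cd4dc_co

open Finset

/-- The spine is `0, …, 31`; the other vertices hang at these spine vertices. -/
def exPos (v : Fin 43) : ℕ :=
  if v.1 < 32 then v.1 else [3, 9, 9, 9, 13, 15, 18, 22, 22, 22, 28].getD (v.1 - 32) 0

/-- Distance to the spine. -/
def exHt (v : Fin 43) : ℕ :=
  if v.1 < 32 then 0 else [1, 1, 2, 3, 1, 1, 1, 1, 2, 3, 1].getD (v.1 - 32) 0

/-- The distance table. -/
def exD (a b : Fin 43) : ℕ :=
  if exPos a = exPos b then (exHt a - exHt b) + (exHt b - exHt a)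
  else (exPos a - exPos b) + (exPos b - exPos a) + exHt a + exHt b

/-- The extremal tree. -/
def exG : SimpleGraph (Fin 43) where
  Adj a b := exD a b = 1
  symm := ⟨by decide +kernel⟩
  loopless := ⟨by decide +kernel⟩

instance : DecidableRel exG.Adj := fun a b => inferInstanceAs (Decidable (exD a b = 1))

theorem exG_aux : (∀ a b, exG.Reachable a b) ∧ ∀ a b, exG.dist a b = exD a b :=
  dist_eq_of exD (by decide +kernel) (by decide +kernel) (by decide +kernel)

theorem exG_dist : exG.dist = exD := by
  funext a b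
  exact exG_aux.2 a b

theorem exG_tree : exG.IsTree := by
  rw [SimpleGraph.isTree_iff_connected_and_card]
  refine ⟨⟨exG_aux.1⟩, ?_⟩
  have h1 := exG.sum_degrees_eq_twice_card_edges
  have h2 : ∑ v, exG.degree v = 84 := by
    simp only [← SimpleGraph.card_neighborFinset_eq_degree, SimpleGraph.neighborFinset_eq_filter]
    decide +kernel
  rw [Nat.card_eq_fintype_card, ← SimpleGraph.edgeFinset_card, Nat.card_eq_fintype_card,
    Fintype.card_fin]
  omega

/-- The maximal irredundant broadcast of cost 14. -/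
def exF (v : Fin 43) : ℕ :=
  if v.1 = 6 ∨ v.1 = 25 then 1
  else if v.1 = 3 ∨ v.1 = 9 ∨ v.1 = 13 ∨ v.1 = 18 ∨ v.1 = 22 ∨ v.1 = 28 then 2 else 0

/-- The multipacking of size 15. -/
def exM : Finset (Fin 43) := {0, 32, 5, 8, 35, 11, 36, 37, 38, 20, 41, 23, 26, 42, 31}

instance (v y : Fin 43) : Decidable (PB exD exF v y) := by unfold PB; infer_instance

instance (q : Fin 43) : Decidable (Heard exD exF q) := by unfold Heard; infer_instance

theorem exF_sum : ∑ v, exF v = 14 := by decide +kernel

theorem exF_ecc : ∀ v, ∃ u, exF v ≤ exD v u := by decide +kernel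

theorem exF_irr : ∀ w, 0 < exF w → ∃ y, PB exD exF w y := by decide +kernel

theorem exF_max {g : Fin 43 → ℕ} (hg : ∀ x, exF x ≤ g x) (irr : ∀ w, 0 < g w → ∃ y, PB exD g w y)
    (x : Fin 43) : ¬ exF x < g x :=
  max_of_leaves
    (fun q => if q = 0 then 3 else if q = 35 then 9 else if q = 37 then 13
      else if q = 41 then 22 else 28)
    (fun q => if q = 0 then 1 else if q = 35 then 34 else if q = 37 then 15
      else if q = 41 then 40 else 30)
    (fun q => if q = 0 then 6 else if q = 35 then 6 else if q = 37 then 18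
      else if q = 41 then 25 else 25)
    (by decide +kernel) hg irr x

theorem exM_card : exM.card = 15 := by decide +kernel

theorem exM_pack (c : Fin 43) (k : ℕ) (hk : 1 ≤ k) :
    (exM.filter fun q => exD q c ≤ k).card ≤ k := by
  by_cases h : k < 15
  · have : ∀ c : Fin 43, ∀ k : Fin 15, 1 ≤ k.1 →
        (exM.filter fun q => exD q c ≤ k.1).card ≤ k.1 := by decide +kernel
    exact this c ⟨k, h⟩ hk
  · have := card_filter_le exM fun q => exD q c ≤ k
    rw [exM_card] at this
    omega

end Pool.Agent.MP_8cd4dc_co
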